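import Pool.Agent.ARB.V.St
import Pool.Agent.ARB.Basic
import Mathlib.Tactic

/-!
# A strand lying over everything
-/

set_option autoImplicit false

namespace Pool.Agent.ARB

private theorem nat_ov_zero (p : Bool) : ov p 0 = [] := rfl

private theorem nat_ov_add (p : Bool) (a b : ℕ) : ov p (a + b) = ov p a ++ sh a (ov p b) := by
  unfold ov sh
  rw [List.range_add, List.map_append, List.map_map, List.map_map]
  congr 1
  apply List.map_congr_left
  intro i _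
  show pX (a + i) p = pX (i + a) p
  rw [Nat.add_comm]

private theorem nat_ok_ov (p : Bool) (n : ℕ) : Ok (ov p n) (n + 1) (n + 1) := by
  induction n with
  | zero => rfl
  | succ n ih =>
    rw [nat_ov_add]
    refine (ih.add 1).append ?_
    refine ⟨?_, ?_⟩
    · show 0 + n + 2 ≤ n + 1 + 1
      omega
    · show n + 1 + 1 - 2 + 2 = n + 1 + 1
      omega

private theorem nat_okX {n i : ℕ} (p : Bool) (h : i + 2 ≤ n) : Ok [pX i p] n n := by
  refine ⟨h, ?_⟩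
  show n - 2 + 2 = n
  omega

/-- the local identities -/
private theorem nat_loc (p : Bool) (k : Kind) :
    Iso (k.inn + 1) (ov p k.inn ++ [⟨k, 0⟩]) (⟨k, 1⟩ :: ov p k.out) := by
  cases k with
  | U =>
    show Iso 1 [pU 0] [pU 1, pX 0 p, pX 1 p]
    have h1 : Iso 1 ([pU 1, pX 0 p] ++ [pX 1 p]) ([pU 0, pX 1 (!p)] ++ [pX 1 p]) :=
      (Iso.slU (i := 0) p (le_refl 1)).right _
    have h2 : Iso 1 ([pU 0] ++ [pX 1 (!p), pX 1 p]) ([pU 0] ++ []) :=
      Iso.left (k := 3) ⟨by decide, rfl⟩ (Iso.r2' (i := 1) p (le_refl 3))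
    exact (h1.trans h2).symm
  | N =>
    show Iso 3 [pX 0 p, pX 1 p, pN 0] [pN 1]
    have h1 : Iso 3 ([pX 0 p] ++ [pX 1 p, pN 0]) ([pX 0 p] ++ [pX 0 (!p), pN 1]) := by
      refine Iso.left (k := 3) (nat_okX p (by decide)) ?_
      have h := Iso.slN (n := 3) (i := 0) (!p) (le_refl 3)
      rw [Bool.not_not] at h
      exact h.symm
    have h2 : Iso 3 ([pX 0 p, pX 0 (!p)] ++ [pN 1]) ([] ++ [pN 1]) :=
      (Iso.r2 (i := 0) p (by decide)).right _
    exact h1.trans h2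
  | X q =>
    show Iso 3 [pX 0 p, pX 1 p, pX 0 q] [pX 1 q, pX 0 p, pX 1 p]
    by_cases hq : q = p
    · subst hq
      exact Iso.r3 (i := 0) q (le_refl 3)
    · have hq' : q = !p := by
        cases q <;> cases p <;> simp at hq ⊢
      subst hq'
      have h3 := Iso.r3 (n := 3) (i := 0) p (le_refl 3)
      -- X0 X1 X0' ~ X1' X1 X0 X1 X0' ~ X1' X0 X1 X0 X0' ~ X1' X0 X1
      have a1 : Iso 3 ([pX 0 p, pX 1 p, pX 0 (!p)])
          ([pX 1 (!p), pX 1 p] ++ [pX 0 p, pX 1 p, pX 0 (!p)]) :=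
        ((Iso.r2' (i := 1) p (le_refl 3)).right [pX 0 p, pX 1 p, pX 0 (!p)]).symm
      have a2 : Iso 3 ([pX 1 (!p)] ++ ([pX 1 p, pX 0 p, pX 1 p] ++ [pX 0 (!p)]))
          ([pX 1 (!p)] ++ ([pX 0 p, pX 1 p, pX 0 p] ++ [pX 0 (!p)])) :=
        Iso.mid (k := 3) _ _ (nat_okX (!p) (le_refl 3)) h3.symm
      have a3 : Iso 3 ([pX 1 (!p), pX 0 p, pX 1 p] ++ [pX 0 p, pX 0 (!p)])
          ([pX 1 (!p), pX 0 p, pX 1 p] ++ []) :=
        Iso.left (k := 3) (((nat_okX (!p) (le_refl 3)).append (nat_okX p (by decide))).append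
          (nat_okX p (le_refl 3))) (Iso.r2 (i := 0) p (by decide))
      exact a1.trans (a2.trans a3)

/-- one piece -/
private theorem nat_piece (hC : St_Comm) (p : Bool) (s : Piece) (n : ℕ) (h : s.i + s.k.inn ≤ n) :
    Iso (n + 1) (ov p n ++ [s]) (⟨s.k, s.i + 1⟩ :: ov p (n - s.k.inn + s.k.out)) := by
  obtain ⟨k, i⟩ := s
  change i + k.inn ≤ n at h
  show Iso (n + 1) (ov p n ++ [⟨k, i⟩]) (⟨k, i + 1⟩ :: ov p (n - k.inn + k.out))
  obtain ⟨r, rfl⟩ := Nat.exists_eq_add_of_le h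
  -- n = i + inn + r
  have e1 : i + k.inn + r - k.inn + k.out = i + k.out + r := by omega
  rw [e1]
  -- parts
  have s1 : ov p (i + k.inn + r) = ov p i ++ (sh i (ov p k.inn) ++ sh (i + k.inn) (ov p r)) := by
    rw [nat_ov_add, nat_ov_add, List.append_assoc]
  have s2 : ov p (i + k.out + r) = ov p i ++ (sh i (ov p k.out) ++ sh (i + k.out) (ov p r)) := by
    rw [nat_ov_add, nat_ov_add, List.append_assoc]
  have hk : Ok [⟨k, 0⟩] k.inn k.out := by
    refine ⟨by show 0 + k.inn ≤ k.inn; omega, ?_⟩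
    show k.inn - k.inn + k.out = k.out
    omega
  -- the last part commutes with the piece
  have c1 : Iso (k.inn + (r + 1)) ([⟨k, 0⟩] ++ sh k.out (ov p r)) (sh k.inn (ov p r) ++ [⟨k, 0⟩]) :=
    hC _ _ _ _ _ _ hk (nat_ok_ov p r)
  have c2 := c1.sh i
  rw [sh_append, sh_append, sh_sh, sh_sh] at c2
  have c3 : Iso (i + k.inn + r + 1) (sh (i + k.inn) (ov p r) ++ [⟨k, i⟩])
      ([⟨k, i⟩] ++ sh (i + k.out) (ov p r)) := by
    have h1 := c2.symm
    have e2 : sh i [(⟨k, 0⟩ : Piece)] = [⟨k, i⟩] := by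
      show [(⟨k, 0 + i⟩ : Piece)] = [⟨k, i⟩]
      rw [Nat.zero_add]
    rw [e2] at h1
    have e3 : k.inn + (r + 1) + i = i + k.inn + r + 1 := by omega
    rw [e3] at h1
    exact h1
  -- the local identity
  have l1 := (nat_loc p k).sh i
  rw [sh_append] at l1
  have l2 : Iso (i + k.inn + 1) (sh i (ov p k.inn) ++ [⟨k, i⟩])
      (⟨k, i + 1⟩ :: sh i (ov p k.out)) := by
    have e2 : sh i [(⟨k, 0⟩ : Piece)] = [⟨k, i⟩] := by
      show [(⟨k, 0 + i⟩ : Piece)] = [⟨k, i⟩]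
      rw [Nat.zero_add]
    rw [e2] at l1
    have e3 : k.inn + 1 + i = i + k.inn + 1 := by omega
    rw [e3] at l1
    have e4 : (⟨k, 1 + i⟩ : Piece) = ⟨k, i + 1⟩ := by rw [Nat.add_comm]
    have l3 : Iso (i + k.inn + 1) (sh i (ov p k.inn) ++ [⟨k, i⟩])
        (⟨k, 1 + i⟩ :: sh i (ov p k.out)) := l1
    rw [e4] at l3
    exact l3
  -- the piece commutes with the first part
  have d1 : Iso (i + 1 + k.inn) (ov p i ++ sh (i + 1) [⟨k, 0⟩]) (sh (i + 1) [⟨k, 0⟩] ++ ov p i) :=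
    hC _ _ _ _ _ _ (nat_ok_ov p i) hk
  have e5 : sh (i + 1) [(⟨k, 0⟩ : Piece)] = [⟨k, i + 1⟩] := by
    show [(⟨k, 0 + (i + 1)⟩ : Piece)] = [⟨k, i + 1⟩]
    rw [Nat.zero_add]
  rw [e5] at d1
  -- assemble
  have hoi : Ok (ov p i) (i + k.inn + r + 1) (i + k.inn + r + 1) := by
    have h1 := (nat_ok_ov p i).add (k.inn + r)
    have e : i + 1 + (k.inn + r) = i + k.inn + r + 1 := by omega
    rw [e] at h1
    exact h1
  have hoin : Ok (sh i (ov p k.inn)) (i + k.inn + r + 1) (i + k.inn + r + 1) := by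
    have h1 := ((nat_ok_ov p k.inn).sh i).add r
    have e : k.inn + 1 + i + r = i + k.inn + r + 1 := by omega
    rw [e] at h1
    exact h1
  rw [s1, s2]
  have t1 : Iso (i + k.inn + r + 1)
      (ov p i ++ (sh i (ov p k.inn) ++ (sh (i + k.inn) (ov p r) ++ [⟨k, i⟩])))
      (ov p i ++ (sh i (ov p k.inn) ++ ([⟨k, i⟩] ++ sh (i + k.out) (ov p r)))) :=
    Iso.left hoi (Iso.left hoin c3)
  have t2 : Iso (i + k.inn + r + 1)
      (ov p i ++ ((sh i (ov p k.inn) ++ [⟨k, i⟩]) ++ sh (i + k.out) (ov p r)))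
      (ov p i ++ ((⟨k, i + 1⟩ :: sh i (ov p k.out)) ++ sh (i + k.out) (ov p r))) := by
    refine Iso.mid _ _ hoi (l2.le ?_)
    omega
  have t3 : Iso (i + k.inn + r + 1)
      ((ov p i ++ [⟨k, i + 1⟩]) ++ (sh i (ov p k.out) ++ sh (i + k.out) (ov p r)))
      (([⟨k, i + 1⟩] ++ ov p i) ++ (sh i (ov p k.out) ++ sh (i + k.out) (ov p r))) := by
    refine Iso.right (d1.le ?_) _
    omega
  have a1 : (ov p i ++ (sh i (ov p k.inn) ++ sh (i + k.inn) (ov p r))) ++ [⟨k, i⟩] =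
      ov p i ++ (sh i (ov p k.inn) ++ (sh (i + k.inn) (ov p r) ++ [⟨k, i⟩])) := by
    simp only [List.append_assoc]
  have a2 : ov p i ++ (sh i (ov p k.inn) ++ ([⟨k, i⟩] ++ sh (i + k.out) (ov p r))) =
      ov p i ++ ((sh i (ov p k.inn) ++ [⟨k, i⟩]) ++ sh (i + k.out) (ov p r)) := by
    simp only [List.append_assoc]
  have a3 : ov p i ++ ((⟨k, i + 1⟩ :: sh i (ov p k.out)) ++ sh (i + k.out) (ov p r)) =
      (ov p i ++ [⟨k, i + 1⟩]) ++ (sh i (ov p k.out) ++ sh (i + k.out) (ov p r)) := by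
    simp
  have a4 : (([⟨k, i + 1⟩] ++ ov p i) ++ (sh i (ov p k.out) ++ sh (i + k.out) (ov p r))) =
      ⟨k, i + 1⟩ :: (ov p i ++ (sh i (ov p k.out) ++ sh (i + k.out) (ov p r))) := by
    simp
  rw [a1]
  rw [a4] at t3
  rw [a3] at t2
  rw [a2] at t1
  exact t1.trans (t2.trans t3)

theorem thm_Nat (hC : St_Comm) : St_Nat := by
  intro p w
  induction w with
  | nil =>
    intro n m h
    have h1 : n = m := h
    subst h1
    rw [sh_nil, List.append_nil, List.nil_append]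
    exact Iso.refl _ _
  | cons s w ih =>
    intro n m h
    obtain ⟨h1, h2⟩ := h
    have i1 := ih _ _ h2
    have p1 := nat_piece hC p s n h1
    have q1 : Iso (n + 1) ((ov p n ++ [s]) ++ w)
        ((⟨s.k, s.i + 1⟩ :: ov p (n - s.k.inn + s.k.out)) ++ w) := p1.right w
    have q2 : Iso (n + 1) ([⟨s.k, s.i + 1⟩] ++ (ov p (n - s.k.inn + s.k.out) ++ w))
        ([⟨s.k, s.i + 1⟩] ++ (sh 1 w ++ ov p m)) := by
      refine Iso.left (k := n - s.k.inn + s.k.out + 1) ?_ i1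
      refine ⟨by show s.i + 1 + s.k.inn ≤ n + 1; omega, ?_⟩
      show n + 1 - s.k.inn + s.k.out = n - s.k.inn + s.k.out + 1
      omega
    have e1 : (ov p n ++ [s]) ++ w = ov p n ++ (s :: w) := by simp
    rw [e1] at q1
    exact q1.trans q2

end Pool.Agent.ARB
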