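import Pool.Agent.ARB.TopStmts

/-!
# Arborescent knots: statements of the second topology block (rational tangles, beads)

Everything is about words of pieces, see `ARB/Defs.lean`; the calculus of `Ok`, `sh`, `Iso` (context,
shifts, single moves `Iso.zig`, `Iso.zag`, `Iso.slU`, `Iso.slN`, `Iso.r1U`, `Iso.r1N`, `Iso.r2`,
`Iso.r2'`, `Iso.r3`, `Iso.swap`, congruences `congS`, `congR`, `congR'`, `congN`, `congD`, and `okA`) is
in `ARB/Basic.lean`.  Notation in the proofs: `U i`, `N i`, `X i p` for `pU i`, `pN i`, `pX i p`; `~` is `Iso`.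
-/

set_option autoImplicit false

namespace Pool.Agent.ARB

/-- one strand, coming from the left, crosses `n` strands to the right: `X 0 p, ..., X (n-1) p` -/
def ov (p : Bool) (n : ℕ) : Word := (List.range n).map fun i => pX i p

/-- [Comm] words next to each other commute (helper2) -/
def St_Comm : Prop := ∀ (u w : Word) (a b c d : ℕ), Ok u a b → Ok w c d →
  Iso (a + c) (u ++ sh b w) (sh a w ++ u)

/-- [RR] the two rotations are inverse to each other (helper2) -/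
def St_RR : Prop := ∀ A : Word, Ok A 2 2 → Iso 2 (rotW' (rotW A)) A ∧ Iso 2 (rotW (rotW' A)) A

/-! ## Naturality of a strand lying over (or under) everything -/

/-- [Nat] Proof. Induction on `w`; for one piece `⟨k, i⟩` on `n` strands write
`ov p n = ov p i ++ sh i (ov p k.inn) ++ sh (i + k.inn) (ov p (n - i - k.inn))`; the piece commutes with
the last part (`Iso.swap` or `St_Comm`), then the local identity (shifted by `i`)
`ov p k.inn ++ [⟨k, 0⟩] ~ ⟨k, 1⟩ :: ov p k.out`, then `⟨k, i + 1⟩` commutes with `ov p i`.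
Local identities: `U`: `[U 1, X 0 p, X 1 p] ~ [U 0, X 1 !p, X 1 p] ~ [U 0]` (`slU`, `r2'`), 1 strand.
`N`: `[X 0 p, X 1 p, N 0] ~ [X 0 p, X 0 !p, N 1] ~ [N 1]` (`slN`, `r2`), 3 strands.
`X q`: `[X 0 p, X 1 p, X 0 q] ~ [X 1 q, X 0 p, X 1 p]`, 3 strands: for `q = p` this is `r3`; for `q = !p`
multiply `[X 1 p, X 0 p, X 1 p] ~ [X 0 p, X 1 p, X 0 p]` by `X 1 !p` before and `X 0 !p` after. -/
def St_Nat : Prop := ∀ (p : Bool) (w : Word) (n m : ℕ), Ok w n m →
  Iso (n + 1) (ov p n ++ w) (sh 1 w ++ ov p m)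

/-! ## Rational tangles -/

/-- [K] Proof. `rotW (A ++ [X 0 p]) = U 2 :: sh 1 A ++ [X 1 p, N 0]`, `[X 1 p, N 0] ~ [X 0 !p, N 1]`
(`slN`) `~ [X 0 !p, X 1 !p, X 1 p, N 1]` (`r2'`) `~ [X 0 !p, X 1 !p, N 1]` (`r1N`); by `St_Nat`
`sh 1 A ++ [X 0 !p, X 1 !p] ~ [X 0 !p, X 1 !p] ++ A` (`ov (!p) 2`, 3 strands, plus one on the right);
finally `[U 2, X 0 !p] ~ [X 0 !p, U 2]` (`swap`). -/
def St_K : Prop := ∀ (A : Word) (p : Bool), Ok A 2 2 →
  Iso 2 (rotW (A ++ [pX 0 p])) (pX 0 (!p) :: pU 2 :: pX 1 (!p) :: (A ++ [pN 1]))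

/-- [F] Proof. Let `T = X 0 p :: (A ++ [X 0 !p])`, so `A ~ X 0 !p :: (T ++ [X 0 p])`. By `St_K`
`X 0 p :: rotW A ~ X 0 p :: X 0 !p :: U 2 :: X 1 !p :: X 0 !p :: (T ++ [N 1]) ~
[U 2, X 1 !p, X 0 !p] ++ T ++ [N 1]`.
On the other side, by `St_Nat` for `T ++ [N 1]` (`3 → 1`):
`rotW' T ++ [X 0 p] = U 0 :: (sh 1 (T ++ [N 1]) ++ ov p 1) ~ U 0 :: (ov p 3 ++ (T ++ [N 1]))`, and
`[U 0, X 0 p, X 1 p, X 2 p] ~ [U 0, X 1 p, X 2 p]` (`r1U`) `~ [U 1, X 0 !p, X 2 p]` (`slU`)
`~ [U 1, X 2 p, X 0 !p]` (`swap`) `~ [U 2, X 1 !p, X 0 !p]` (`slU`). -/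
def St_F : Prop := ∀ (A : Word) (p : Bool), Ok A 2 2 →
  Iso 2 (pX 0 p :: rotW A) (rotW' (pX 0 p :: (A ++ [pX 0 (!p)])) ++ [pX 0 p])

/-- [J] Proof. By `St_K` for `rotW A` the left side is
`~ X 0 !p :: U 2 :: X 1 !p :: U 2 :: (sh 1 A ++ [N 0, N 1])`. On 6 strands `[N 0, N 1] ~ [N 3, N 0]`
(`swap`), `sh 1 A ++ [N 3] ~ N 3 :: sh 1 A` (`St_Comm` for `sh 1 A`, `3 → 3`, and `[N 0]`), and
`[U 2, N 3] ~ []` (`zig`); what remains is the right side. -/
def St_J : Prop := ∀ (A : Word) (p : Bool), Ok A 2 2 →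
  Iso 2 (rotW (rotW A ++ [pX 0 p])) (pX 0 (!p) :: rotW (pX 0 (!p) :: A))

/-- [FL] Proof. `rotW (rotW B) = U 2 :: U 3 :: (sh 2 B ++ [N 1, N 0])`. On 6 strands
`[X 2 p, N 1, N 0] ~ [X 1 !p, N 2, N 0]` (`slN`) `~ [X 1 !p, N 0, N 0]` (`swap`) `~ [X 0 p, N 1, N 0]`
(`slN`). Then `X 0 p` commutes with `sh 2 (U 0 :: U 1 :: A)` (`St_Comm`).
Second claim: `[U 2, U 3, N 1, N 0] ~ [U 2, N 1, U 1, N 0]` (`swap`) `~ [U 1, N 0] ~ []` (`zag`).
Third claim: `[U 2, N 0, X 0 p] ~ [N 0, U 0, X 0 p] ~ [N 0, U 0] ~ [U 2, N 0]`. -/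
def St_FL : Prop := (∀ (A : Word) (p : Bool), Ok A 2 2 →
  Iso 2 (rotW (rotW (A ++ [pX 0 p]))) (pX 0 p :: rotW (rotW A))) ∧
  Iso 2 (rotW (rotW [])) [] ∧ ∀ p : Bool, Iso 2 (rotW [] ++ [pX 0 p]) (rotW [])

/-- [RI] Rational tangles commute with crossings and are invariant under rotation by 180 degrees.
Proof. Simultaneous induction on `Rat R`, `c = X 0 p`. `0`: first claim trivial, second `St_FL`.
`R + c'`: `c R c' ~ R c c' ~ R c' c` (`c`, `c'` are equal or inverse to each other);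
`rotW (rotW (R c')) ~ c' (rotW (rotW R)) ~ c' R ~ R c'` (`St_FL`). `rotW R`: by `St_F`
`c (rotW R) ~ (rotW' (c R c⁻¹)) c`, `c R c⁻¹ ~ R c c⁻¹ ~ R`, `rotW' R ~ rotW' (rotW (rotW R)) ~ rotW R`
(`St_RR`); the second claim is `congR`. -/
def St_RI : Prop := ∀ R : Arb, Rat R → (∀ p : Bool,
  Iso 2 (pX 0 p :: R.word) (R.word ++ [pX 0 p])) ∧ Iso 2 (rotW (rotW R.word)) R.word

/-- words in the letters `R` (`none`), `U` (`some true`), `U⁻¹` (`some false`) -/
abbrev MW := List (Option Bool)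

/-- action of a word (the first letter acts last) -/
def MW.act {X : Type} (U U' R : X → X) (c : X) : MW → X
  | [] => c
  | none :: l => R (MW.act U U' R c l)
  | some true :: l => U (MW.act U U' R c l)
  | some false :: l => U' (MW.act U U' R c l)

/-- the slope `(p, q)` of a word -/
def MW.slope : MW → ℤ × ℤ
  | [] => (0, 1)
  | none :: l => ((MW.slope l).2, -(MW.slope l).1)
  | some true :: l => ((MW.slope l).1 + (MW.slope l).2, (MW.slope l).2)
  | some false :: l => ((MW.slope l).1 - (MW.slope l).2, (MW.slope l).2)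

/-- [Mod] the modular group acting on the orbit of `c` (pure algebra).
Proof. Note `U' (R c) = R c`, `R (U c) = U' c` (put `x = R c` in the last but one relation) and
`R (U' c) = U c`. Define `can : ℚ → X` by `can n = U^n c` (`U^{-1} = U'`) for integers and
`can x = U^⌊x⌋ (R (can (-1 / fract x)))` otherwise (the denominator decreases). Then
`U (can x) = can (x + 1)`, `U' (can x) = can (x - 1)`.
Claim (E): `R (can x) = can (-1 / x)` for `x ≠ 0`. `0 < x < 1`: `can x = R (can (-1 / x))` by definition.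
`x < -1`: `can (-1 / x) = R (can x)` by definition (`0 < -1 / x < 1`). `x = 1`, `x = -1`: see above.
`x = t + 1 > 1`, by induction on `⌊x⌋` the claim holds for `t > 0`:
`R (U (can t)) = R (U (R (R (can t)))) = U' (R (U' (R (can t)))) = U' (R (U' (can (-1 / t)))) =
U' (R (can (-(1 + t) / t))) = U' (can (t / (1 + t))) = can (-1 / (1 + t))` by the case `< -1`.
`-1 < x < 0`: apply the case `-1 / x > 1` and `R` again.
By induction on a word `l` with slope `(p, q)`: `act l = can (p / q)` if `q ≠ 0`, and `act l = R c` if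
`q = 0` (`p`, `q` are coprime, so `p = 0` implies `q = 1` or `q = -1`, `can 0 = c`). -/
def St_Mod : Prop := ∀ (X : Type) (c : X) (U U' R : X → X), (∀ x, U (U' x) = x) →
  (∀ x, U' (U x) = x) → (∀ x, R (R x) = x) → (∀ x, R (U (R x)) = U' (R (U' x))) →
  U (R c) = R c → ∀ l l' : MW, (MW.slope l).1 * (MW.slope l').2 = (MW.slope l).2 * (MW.slope l').1 →
  MW.act U U' R c l = MW.act U U' R c l'

/-- [T3] is `St_T3`. Proof from `St_RI`, `St_J`, `St_FL`, `St_Mod`: `X` is the quotient of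
`{R : Arb // Rat R}` by `Iso 2` of the words, `U [R] = [R + cross true]`, `U' [R] = [R + cross false]`,
`R [R] = [rot R]`, `c = [0]`. Last but one relation: by `St_J` `rotW (rotW A ++ [X 0 true]) ~
X 0 false :: rotW (X 0 false :: A)`, and twice `St_RI`. Every `R` with `Rat R` is the image of a word
with slope `R.pq`. -/
def St_T3' : Prop := St_T3

/-- [T3b] is `St_T3b`, [T3a] is `St_T3a`, [T4] is `St_T4`.
Proof of [T3a]: coprimality by induction on `Rat`. Existence: induction on `|q|`. `q = 0`: `rot 0`.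
Otherwise `n = p / q` (integer division), `r = p - n q`, `|r| < |q|`, take `T` for `(-q, r)`:
`rot T` has `(r, q)` (up to sign), then add `|n|` crossings.
Proof of [T3b]: let `int n` be the sum of `|n|` crossings (added one after another to `0`), slope
`(n, 1)`. By `St_T3` `I ~ int n`, `n = ± I.pq.1`. `C = R + crossings` (as many). `R ++ int n` is the word
of `C`; `int n ++ R ~ R ++ int n` by `St_RI`.
Proof of [T4]: by `St_T3` `R ~ rot (int n)` with `n = ± R.pq.2`. By `St_T2` and `St_T7` `NW (rotW A) ~ DW A`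
for `A = int n` (`NW (rotW A ++ []) ~ NW (A ++ rotW [])`), and `DW (int n) ~ O1` by `r1N`. -/
def St_Rest : Prop := St_T3a ∧ St_T3b ∧ St_T4

/-! ## Beads: a 1-1 tangle `X` inserted in a strand of a diagram of the unknot can be moved around -/

/-- `X` upside down, two versions -/
def flp (X : Word) : Word := pU 1 :: (sh 1 X ++ [pN 0])
/-- `X` upside down, second version -/
def flp' (X : Word) : Word := pU 0 :: (sh 1 X ++ [pN 1])

/-- [BX] a bead slides through a crossing. Proof. The first claim is `St_Nat` for `X` (`ov p 1 = [X 0 p]`);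
second: `X ++ [X 0 p] ~ [X 0 p, X 0 !p] ++ X ++ [X 0 p] ~ X 0 p :: sh 1 X ++ [X 0 !p, X 0 p] ~
X 0 p :: sh 1 X`. -/
def St_BX : Prop := ∀ (X : Word) (p : Bool), Ok X 1 1 →
  Iso 2 (sh 1 X ++ [pX 0 p]) (pX 0 p :: X) ∧ Iso 2 (X ++ [pX 0 p]) (pX 0 p :: sh 1 X)

/-- [BU] a bead slides over a cup or a cap, turning upside down. Proof.
(1) `U 0 :: sh 1 (flp X) = [U 0] ++ sh 2 (U 0 :: X) ++ [N 1] ~ U 0 :: X ++ [U 0, N 1] ~ U 0 :: X`
(`St_Comm`, `zig`). (2) `U 0 :: flp' X = [U 0] ++ (U 0 :: sh 1 X) ++ [N 1] ~ (U 0 :: sh 1 X) ++ [U 2, N 1]`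
(`St_Comm` for `U 0 :: sh 1 X` and `[U 0]`), `zag`. (3), (4): in the same way with caps,
`sh 1 (flp' X) ++ [N 0] = U 1 :: sh 2 X ++ [N 2, N 0]`: `[N 2, N 0] ~ [N 0, N 0]` (`swap`),
`sh 2 X ++ [N 0] ~ N 0 :: X`, `[U 1, N 0] ~ []`; `flp X ++ [N 0] = U 1 :: sh 1 X ++ [N 0, N 0]`:
`[N 0, N 0] ~ [N 2, N 0]`, `sh 1 X ++ [N 2] ~ N 2 :: sh 1 X`, `[U 1, N 2] ~ []`. -/
def St_BU : Prop := ∀ X : Word, Ok X 1 1 →
  Iso 0 (pU 0 :: X) (pU 0 :: sh 1 (flp X)) ∧ Iso 0 (pU 0 :: sh 1 X) (pU 0 :: flp' X) ∧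
  Iso 2 (X ++ [pN 0]) (sh 1 (flp' X) ++ [pN 0]) ∧ Iso 2 (sh 1 X ++ [pN 0]) (flp X ++ [pN 0])

/-- [BO] closing on the other side. Proof. `DW X ~ [U 0, X 0 true] ++ X ++ [N 0]` (`r1U`)
`~ U 0 :: sh 1 X ++ [X 0 true, N 0]` (`St_BX`) `~ U 0 :: sh 1 X ++ [N 0]` (`r1N`). The other two claims
from this and (4), (2) of `St_BU`. -/
def St_BO : Prop := ∀ X : Word, Ok X 1 1 → Iso 0 (pU 0 :: (sh 1 X ++ [pN 0])) (DW X) ∧
  Iso 0 (DW (flp X)) (DW X) ∧ Iso 0 (DW (flp' X)) (DW X)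

/-- A bead inserted somewhere in the middle of the word `a` on `k` strands can be moved out of `a`. -/
def OutB (k : ℕ) (a : Word) : Prop := ∀ (X a₁ a₂ : Word) (h j : ℕ), Ok X 1 1 → a = a₁ ++ a₂ →
  Ok a₁ k h → j < h → ∃ X' : Word, Ok X' 1 1 ∧ Iso 0 (DW X') (DW X) ∧
    ((∃ j' : ℕ, j' < k ∧ Iso k (a₁ ++ (sh j X ++ a₂)) (sh j' X' ++ a)) ∨
      ∃ l j' : ℕ, Ok a k l ∧ j' < l ∧ Iso k (a₁ ++ (sh j X ++ a₂)) (a ++ sh j' X'))

/-- [BL] beads leave the local moves. Proof. If `a₁ = []` or `a₂ = []` nothing is to be done (`X' = X`).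
So `a` has two or three pieces. A bead can always be moved below or above a crossing (if it is on one
of the two strands by `St_BX`, otherwise by `St_Comm`; `X' = X`). This settles all cases in which the
first piece of `a` is a crossing and the cut is after the first piece, or the last piece is a crossing
and the cut is before the last piece, in particular `slU`, `slN`, `r1U`, `r1N`, `r2`, `r3` and `swap` with a
crossing. `swap`, other cases: the strand `j` is not an output of the first piece (move the bead below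
it by `St_Comm`), or it is, and then it is no input of the second piece (move it above). `zig`, `zag`:
the strand `j` is not an output of the cup (move below), or not an input of the cap (move above), or
the common strand: move the bead to the other strand of the cup by `St_BU` (`X' = flp' X` or `flp X`,
`St_BO`), then above the cap by `St_Comm`. -/
def St_BL : Prop := ∀ (a b : Word) (k l : ℕ), (Loc a b ∨ Loc b a) → Ok a k l → OutB k a

/-- all insertions of beads in `K` are trivial -/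
def Rdy (K : Word) : Prop := ∀ (X u v : Word) (n j : ℕ), Ok X 1 1 → K = u ++ v → Ok u 0 n → j < n →
  Iso 0 (u ++ (sh j X ++ v)) (DW X)

/-- [BR] Proof. `Rdy O1`: the bead is between the cup and the cap, on strand `0` (definition) or `1`
(`St_BO`). If `Rdy K` and `Step 0 K K'` then `Rdy K'`: `K = s ++ (a ++ t)`, `K' = s ++ (b ++ t) = u ++ v`,
`Loc a b ∨ Loc b a`, `Ok s 0 k`, `Ok a k l`, `Ok b k l`. If the cut is in `s` or in `t`, replace `b` by `a`
(a local move in context) and use `Rdy K`. If it is in `b`, use `St_BL` for `b` (`Loc b a ∨ Loc a b`) to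
move the bead to one of the two ends of `b`, then replace `b` by `a`. -/
def St_BR : Prop := ∀ K : Word, Iso 0 K O1 → Rdy K

/-- [T5] connected sum with an unknot, strong form. Proof. Let `X = U 1 :: (C ++ [N 0])`, `Ok X 1 1`.
`(U 0 :: B) ++ (X ++ [N 0])`: `[N 0, N 0] ~ [N 2, N 0]` (`swap`), `C ++ [N 2] ~ N 2 :: C` (`St_Comm`),
`[U 1, N 2] ~ []` (`zig`), so it is `~ DW (B ++ C)`. By `St_BR` for `DW B` (`u = U 0 :: B`, `v = [N 0]`,
`j = 0`) it is `~ DW X`, and `DW X ~ DW C` (the same computation with `B = []`).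
Second claim: `X = U 1 :: (sh 1 C ++ [N 0])`, inserted at `u = [U 0]`, `v = B ++ [N 0]`, `j = 1`:
`U 0 :: sh 1 X = [U 0] ++ sh 2 (U 0 :: C) ++ [N 1] ~ (U 0 :: C) ++ [U 0, N 1] ~ U 0 :: C`; and
`DW X ~ U 0 :: (sh 1 X ++ [N 0])` (`St_BO`) `~ DW C`. -/
def St_T5s : Prop := ∀ B C : Word, Ok B 2 2 → Ok C 2 2 → Iso 0 (DW B) O1 →
  Iso 0 (DW (B ++ C)) (DW C) ∧ Iso 0 (DW (C ++ B)) (DW C)

end Pool.Agent.ARB
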