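import Pool.Agent.ARB.V.St
import Pool.Agent.ARB.Basic
import Mathlib.Tactic

/-!
# [BL] beads leave the local moves
-/

set_option autoImplicit false

namespace Pool.Agent.ARB

private theorem bl_sc (i : ℕ) (k : Kind) (w : Word) :
    sh i (⟨k, 0⟩ :: w) = [⟨k, i⟩] ++ sh i w := by
  rw [sh_cons]
  show ((⟨k, 0 + i⟩ : Piece) :: sh i w) = _
  rw [Nat.zero_add]
  rfl

/-- the bead goes below the piece `s` -/
private theorem bl_down (hC : St_Comm) {X : Word} (hX1 : Ok X 1 1) (s : Piece) (n j : ℕ)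
    (hs : s.i + s.k.inn ≤ n) (hj : j < n - s.k.inn + s.k.out)
    (h : j < s.i ∨ s.i + s.k.out ≤ j) :
    ∃ j' : ℕ, j' < n ∧ Iso n ([s] ++ sh j X) (sh j' X ++ [s]) := by
  obtain ⟨s, i⟩ := s
  simp only at hs hj h
  rcases h with h | h
  · refine ⟨j, by omega, ?_⟩
    -- `X` at `j < i`, `s` on the right
    have h1 := hC X [⟨s, i - j - 1⟩] 1 1 (i - j - 1 + s.inn) (i - j - 1 + s.out) hX1
      ⟨le_refl _, by show i - j - 1 + s.inn - s.inn + s.out = _; omega⟩
    have h2 := (h1.sh j).le (n' := n) (by omega)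
    have e1 : sh j (X ++ sh 1 [⟨s, i - j - 1⟩]) = sh j X ++ [⟨s, i⟩] := by
      rw [sh_append, sh_sh]
      show _ ++ [(⟨s, i - j - 1 + (j + 1)⟩ : Piece)] = _
      rw [show i - j - 1 + (j + 1) = i by omega]
    have e2 : sh j (sh 1 [⟨s, i - j - 1⟩] ++ X) = [⟨s, i⟩] ++ sh j X := by
      rw [sh_append, sh_sh]
      show [(⟨s, i - j - 1 + (j + 1)⟩ : Piece)] ++ _ = _
      rw [show i - j - 1 + (j + 1) = i by omega]
    rw [e1, e2] at h2
    exact h2.symm
  · refine ⟨j - s.out + s.inn, by omega, ?_⟩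
    have h1 := hC [⟨s, 0⟩] (sh (j - s.out - i) X) s.inn s.out (1 + (j - s.out - i))
      (1 + (j - s.out - i))
      ⟨by show 0 + s.inn ≤ s.inn; omega, by show s.inn - s.inn + s.out = s.out; omega⟩
      (hX1.sh _)
    have h2 := (h1.sh i).le (n' := n) (by omega)
    have e1 : sh i ([⟨s, 0⟩] ++ sh s.out (sh (j - s.out - i) X)) = [⟨s, i⟩] ++ sh j X := by
      rw [sh_append, sh_sh, sh_sh]
      show [(⟨s, 0 + i⟩ : Piece)] ++ _ = _
      rw [show 0 + i = i by omega, show i + s.out + (j - s.out - i) = j by omega]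
    have e2 : sh i (sh s.inn (sh (j - s.out - i) X) ++ [⟨s, 0⟩]) =
        sh (j - s.out + s.inn) X ++ [⟨s, i⟩] := by
      rw [sh_append, sh_sh, sh_sh]
      show _ ++ [(⟨s, 0 + i⟩ : Piece)] = _
      rw [show 0 + i = i by omega,
        show i + s.inn + (j - s.out - i) = j - s.out + s.inn by omega]
    rw [e1, e2] at h2
    exact h2

/-- the bead goes above the piece `s` -/
private theorem bl_up (hC : St_Comm) {X : Word} (hX1 : Ok X 1 1) (s : Piece) (n j : ℕ)
    (hs : s.i + s.k.inn ≤ n) (hj : j < n) (h : j < s.i ∨ s.i + s.k.inn ≤ j) :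
    ∃ j' : ℕ, j' < n - s.k.inn + s.k.out ∧ Iso n (sh j X ++ [s]) ([s] ++ sh j' X) := by
  obtain ⟨s, i⟩ := s
  simp only at hs hj h
  rcases h with h | h
  · refine ⟨j, by show j < n - s.inn + s.out; omega, ?_⟩
    have h1 := hC X [⟨s, i - j - 1⟩] 1 1 (i - j - 1 + s.inn) (i - j - 1 + s.out) hX1
      ⟨le_refl _, by show i - j - 1 + s.inn - s.inn + s.out = _; omega⟩
    have h2 := (h1.sh j).le (n' := n) (by omega)
    have e1 : sh j (X ++ sh 1 [⟨s, i - j - 1⟩]) = sh j X ++ [⟨s, i⟩] := by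
      rw [sh_append, sh_sh]
      show _ ++ [(⟨s, i - j - 1 + (j + 1)⟩ : Piece)] = _
      rw [show i - j - 1 + (j + 1) = i by omega]
    have e2 : sh j (sh 1 [⟨s, i - j - 1⟩] ++ X) = [⟨s, i⟩] ++ sh j X := by
      rw [sh_append, sh_sh]
      show [(⟨s, i - j - 1 + (j + 1)⟩ : Piece)] ++ _ = _
      rw [show i - j - 1 + (j + 1) = i by omega]
    rw [e1, e2] at h2
    exact h2
  · refine ⟨j - s.inn + s.out, by show j - s.inn + s.out < n - s.inn + s.out; omega, ?_⟩
    have h1 := hC [⟨s, 0⟩] (sh (j - s.inn - i) X) s.inn s.out (1 + (j - s.inn - i))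
      (1 + (j - s.inn - i))
      ⟨by show 0 + s.inn ≤ s.inn; omega, by show s.inn - s.inn + s.out = s.out; omega⟩
      (hX1.sh _)
    have h2 := (h1.sh i).le (n' := n) (by omega)
    have e1 : sh i ([⟨s, 0⟩] ++ sh s.out (sh (j - s.inn - i) X)) =
        [⟨s, i⟩] ++ sh (j - s.inn + s.out) X := by
      rw [sh_append, sh_sh, sh_sh]
      show [(⟨s, 0 + i⟩ : Piece)] ++ _ = _
      rw [show 0 + i = i by omega,
        show i + s.out + (j - s.inn - i) = j - s.inn + s.out by omega]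
    have e2 : sh i (sh s.inn (sh (j - s.inn - i) X) ++ [⟨s, 0⟩]) =
        sh j X ++ [⟨s, i⟩] := by
      rw [sh_append, sh_sh, sh_sh]
      show _ ++ [(⟨s, 0 + i⟩ : Piece)] = _
      rw [show 0 + i = i by omega,
        show i + s.inn + (j - s.inn - i) = j by omega]
    rw [e1, e2] at h2
    exact h2.symm

/-- the bead goes below a crossing -/
private theorem bl_downX (hC : St_Comm) (hX : St_BX) {X : Word} (hX1 : Ok X 1 1) (p : Bool)
    (i n j : ℕ) (hs : i + 2 ≤ n) (hj : j < n) :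
    ∃ j' : ℕ, j' < n ∧ Iso n ([pX i p] ++ sh j X) (sh j' X ++ [pX i p]) := by
  by_cases h1 : j < i ∨ i + 2 ≤ j
  · exact bl_down hC hX1 (pX i p) n j hs (by show j < n - 2 + 2; omega) h1
  · obtain ⟨hb1, hb2⟩ := hX X p hX1
    have hc : j = i ∨ j = i + 1 := by omega
    rcases hc with hc | hc
    · subst hc
      refine ⟨j + 1, by omega, ?_⟩
      have h2 := (hb1.sh j).le (n' := n) (by omega)
      have e1 : sh j (sh 1 X ++ [pX 0 p]) = sh (j + 1) X ++ [pX j p] := by
        rw [sh_append, sh_sh]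
        show _ ++ [pX (0 + j) p] = _
        rw [Nat.zero_add]
      have e2 : sh j (pX 0 p :: X) = [pX j p] ++ sh j X := by
        exact bl_sc j _ _
      rw [e1, e2] at h2
      exact h2.symm
    · subst hc
      refine ⟨i, by omega, ?_⟩
      have h2 := (hb2.sh i).le (n' := n) (by omega)
      have e1 : sh i (X ++ [pX 0 p]) = sh i X ++ [pX i p] := by
        rw [sh_append]
        show _ ++ [pX (0 + i) p] = _
        rw [Nat.zero_add]
      have e2 : sh i (pX 0 p :: sh 1 X) = [pX i p] ++ sh (i + 1) X := by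
        rw [bl_sc, sh_sh]
      rw [e1, e2] at h2
      exact h2.symm

/-- the bead goes above a crossing -/
private theorem bl_upX (hC : St_Comm) (hX : St_BX) {X : Word} (hX1 : Ok X 1 1) (p : Bool)
    (i n j : ℕ) (hs : i + 2 ≤ n) (hj : j < n) :
    ∃ j' : ℕ, j' < n ∧ Iso n (sh j X ++ [pX i p]) ([pX i p] ++ sh j' X) := by
  by_cases h1 : j < i ∨ i + 2 ≤ j
  · obtain ⟨j', h2, h3⟩ := bl_up hC hX1 (pX i p) n j hs hj h1
    exact ⟨j', by have h4 : j' < n - 2 + 2 := h2; omega, h3⟩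
  · obtain ⟨hb1, hb2⟩ := hX X p hX1
    have hc : j = i ∨ j = i + 1 := by omega
    rcases hc with hc | hc
    · subst hc
      refine ⟨j + 1, by omega, ?_⟩
      have h2 := (hb2.sh j).le (n' := n) (by omega)
      have e1 : sh j (X ++ [pX 0 p]) = sh j X ++ [pX j p] := by
        rw [sh_append]
        show _ ++ [pX (0 + j) p] = _
        rw [Nat.zero_add]
      have e2 : sh j (pX 0 p :: sh 1 X) = [pX j p] ++ sh (j + 1) X := by
        rw [bl_sc, sh_sh]
      rw [e1, e2] at h2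
      exact h2
    · subst hc
      refine ⟨i, by omega, ?_⟩
      have h2 := (hb1.sh i).le (n' := n) (by omega)
      have e1 : sh i (sh 1 X ++ [pX 0 p]) = sh (i + 1) X ++ [pX i p] := by
        rw [sh_append, sh_sh]
        show _ ++ [pX (0 + i) p] = _
        rw [Nat.zero_add]
      have e2 : sh i (pX 0 p :: X) = [pX i p] ++ sh i X := by
        exact bl_sc i _ _
      rw [e1, e2] at h2
      exact h2

/-- what has to be shown for the cut `w` -/
private def BlRes (k : ℕ) (a X w : Word) : Prop :=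
  ∃ X' : Word, Ok X' 1 1 ∧ Iso 0 (DW X') (DW X) ∧
    ((∃ j' : ℕ, j' < k ∧ Iso k w (sh j' X' ++ a)) ∨
      ∃ l j' : ℕ, Ok a k l ∧ j' < l ∧ Iso k w (a ++ sh j' X'))

/-- the cut at the beginning -/
private theorem bl_first {k : ℕ} {a X : Word} (hX1 : Ok X 1 1) {j : ℕ} (hj : j < k) :
    BlRes k a X (sh j X ++ a) :=
  ⟨X, hX1, Iso.refl _ _, Or.inl ⟨j, hj, Iso.refl _ _⟩⟩

/-- the cut at the end -/
private theorem bl_last {k h : ℕ} {a X : Word} (hX1 : Ok X 1 1) {j : ℕ} (ha : Ok a k h)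
    (hj : j < h) : BlRes k a X (a ++ sh j X) :=
  ⟨X, hX1, Iso.refl _ _, Or.inr ⟨h, j, ha, hj, Iso.refl _ _⟩⟩

/-- one piece below the cut, bead moved down -/
private theorem bl_cutDown {k : ℕ} {X a₂ : Word} (hX1 : Ok X 1 1) (s : Piece) (j : ℕ)
    (h : ∃ j' : ℕ, j' < k ∧ Iso k ([s] ++ sh j X) (sh j' X ++ [s])) :
    BlRes k (s :: a₂) X ([s] ++ (sh j X ++ a₂)) := by
  obtain ⟨j', h1, h2⟩ := h
  refine ⟨X, hX1, Iso.refl _ _, Or.inl ⟨j', h1, ?_⟩⟩
  have h3 := h2.right a₂
  rw [List.append_assoc, List.append_assoc] at h3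
  exact h3

/-- one piece above the cut, bead moved up -/
private theorem bl_cutUp {k h l : ℕ} {X X' a₁ : Word} (hX1 : Ok X' 1 1)
    (hD : Iso 0 (DW X') (DW X)) (s : Piece) (j : ℕ)
    (ha : Ok a₁ k h) (hs : Ok [s] h l) (w : Word)
    (hw : Iso k w (a₁ ++ (sh j X' ++ [s])))
    (hm : ∃ j' : ℕ, j' < l ∧ Iso h (sh j X' ++ [s]) ([s] ++ sh j' X')) :
    BlRes k (a₁ ++ [s]) X w := by
  obtain ⟨j', h1, h2⟩ := hm
  refine ⟨X', hX1, hD, Or.inr ⟨l, j', ha.append hs, h1, ?_⟩⟩
  have h3 := hw.trans (Iso.left ha h2)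
  rw [← List.append_assoc] at h3
  exact h3

/-- words with two pieces: enough to treat the cut in the middle -/
private theorem bl_two {k l : ℕ} (s t : Piece) (hok : Ok [s, t] k l)
    (H : ∀ (X : Word) (j : ℕ), Ok X 1 1 → j < k - s.k.inn + s.k.out →
      BlRes k [s, t] X ([s] ++ (sh j X ++ [t]))) : OutB k [s, t] := by
  intro X a₁ a₂ h j hX1 ha hok1 hj
  rcases a₁ with _ | ⟨x, a₁⟩
  · have e : h = k := hok1.symm
    subst e
    simp only [List.nil_append] at ha
    subst ha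
    exact bl_first hX1 hj
  · rcases a₁ with _ | ⟨y, a₁⟩
    · simp only [List.cons_append, List.nil_append, List.cons.injEq] at ha
      obtain ⟨rfl, rfl⟩ := ha
      have e : k - s.k.inn + s.k.out = h := hok1.2
      exact H X j hX1 (by omega)
    · rcases a₁ with _ | ⟨z, a₁⟩
      · simp only [List.cons_append, List.nil_append, List.cons.injEq] at ha
        obtain ⟨rfl, rfl, ha⟩ := ha
        subst ha
        have e := bl_last (X := X) hX1 hok1 hj
        rw [← List.append_nil (sh j X)] at e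
        exact e
      · simp at ha

/-- words with one piece -/
private theorem bl_one {k : ℕ} (s : Piece) : OutB k [s] := by
  intro X a₁ a₂ h j hX1 ha hok1 hj
  rcases a₁ with _ | ⟨x, a₁⟩
  · have e : h = k := hok1.symm
    subst e
    simp only [List.nil_append] at ha
    subst ha
    exact bl_first hX1 hj
  · rcases a₁ with _ | ⟨y, a₁⟩
    · simp only [List.cons_append, List.nil_append, List.cons.injEq] at ha
      obtain ⟨rfl, ha⟩ := ha
      subst ha
      have e := bl_last (X := X) hX1 hok1 hj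
      rw [← List.append_nil (sh j X)] at e
      exact e
    · simp at ha

/-- the empty word -/
private theorem bl_zero {k : ℕ} : OutB k [] := by
  intro X a₁ a₂ h j hX1 ha hok1 hj
  rcases a₁ with _ | ⟨x, a₁⟩
  · have e : h = k := hok1.symm
    subst e
    simp only [List.nil_append] at ha
    subst ha
    exact bl_first hX1 hj
  · simp at ha

/-- two pieces, the second one is a crossing -/
private theorem bl_twoX (hC : St_Comm) (hX : St_BX) {k l : ℕ} (s : Piece) (i : ℕ) (p : Bool)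
    (hok : Ok [s, pX i p] k l) : OutB k [s, pX i p] := by
  refine bl_two s _ hok fun X j hX1 hj => ?_
  obtain ⟨h1, h2, h3⟩ := hok
  have h3' : k - s.k.inn + s.k.out - 2 + 2 = l := h3
  have h2' : i + 2 ≤ k - s.k.inn + s.k.out := h2
  obtain ⟨j', h4, h5⟩ := bl_upX hC hX hX1 p i (k - s.k.inn + s.k.out) j h2' hj
  exact bl_cutUp (a₁ := [s]) hX1 (Iso.refl _ _) (pX i p) j (h := k - s.k.inn + s.k.out) (l := l)
    ⟨h1, rfl⟩ ⟨h2, h3⟩ _ (Iso.refl _ _) ⟨j', by omega, h5⟩

/-- two pieces, the first one is a crossing -/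
private theorem bl_Xtwo (hC : St_Comm) (hX : St_BX) {k l : ℕ} (t : Piece) (i : ℕ) (p : Bool)
    (hok : Ok [pX i p, t] k l) : OutB k [pX i p, t] := by
  refine bl_two _ t hok fun X j hX1 hj => ?_
  have h1 : i + 2 ≤ k := hok.1
  have hj' : j < k - 2 + 2 := hj
  exact bl_cutDown hX1 _ j (bl_downX hC hX hX1 p i k j h1 (by omega))

/-- three crossings -/
private theorem bl_three (hC : St_Comm) (hX : St_BX) {k l : ℕ} (i1 i2 i3 : ℕ) (p1 p2 p3 : Bool)
    (hok : Ok [pX i1 p1, pX i2 p2, pX i3 p3] k l) :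
    OutB k [pX i1 p1, pX i2 p2, pX i3 p3] := by
  obtain ⟨h1, h2, h3, h4⟩ := hok
  have h1' : i1 + 2 ≤ k := h1
  have h2' : i2 + 2 ≤ k - 2 + 2 := h2
  have h3' : i3 + 2 ≤ k - 2 + 2 - 2 + 2 := h3
  have h4' : k - 2 + 2 - 2 + 2 - 2 + 2 = l := h4
  intro X a₁ a₂ h j hX1 ha hok1 hj
  rcases a₁ with _ | ⟨x, a₁⟩
  · have e : h = k := hok1.symm
    subst e
    simp only [List.nil_append] at ha
    subst ha
    exact bl_first hX1 hj
  · rcases a₁ with _ | ⟨y, a₁⟩
    · simp only [List.cons_append, List.nil_append, List.cons.injEq] at ha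
      obtain ⟨rfl, rfl⟩ := ha
      have e : k - 2 + 2 = h := hok1.2
      exact bl_cutDown hX1 _ j (bl_downX hC hX hX1 p1 i1 k j h1' (by omega))
    · rcases a₁ with _ | ⟨z, a₁⟩
      · simp only [List.cons_append, List.nil_append, List.cons.injEq] at ha
        obtain ⟨rfl, rfl, rfl⟩ := ha
        have e : k - 2 + 2 - 2 + 2 = h := hok1.2.2
        have e' : h = k := by omega
        have e'' : l = k := by omega
        subst e'
        subst e''
        obtain ⟨j', h5, h6⟩ := bl_upX hC hX hX1 p3 i3 l j (by omega) hj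
        exact bl_cutUp (a₁ := [pX i1 p1, pX i2 p2]) hX1 (Iso.refl _ _) (pX i3 p3) j
          (h := l) (l := l) hok1
          ⟨by show i3 + 2 ≤ l; omega, by show l - 2 + 2 = l; omega⟩ _ (Iso.refl _ _)
          ⟨j', h5, h6⟩
      · rcases a₁ with _ | ⟨w, a₁⟩
        · simp only [List.cons_append, List.nil_append, List.cons.injEq] at ha
          obtain ⟨rfl, rfl, rfl, ha⟩ := ha
          subst ha
          have e := bl_last (X := X) hX1 hok1 hj
          rw [← List.append_nil (sh j X)] at e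
          exact e
        · simp at ha

/-- two arbitrary pieces: enough if no output of `s` is an input of `t` -/
private theorem bl_swap (hC : St_Comm) {k l : ℕ} (s t : Piece) (hok : Ok [s, t] k l)
    (H : ∀ j, s.i ≤ j → j < s.i + s.k.out → j < t.i ∨ t.i + t.k.inn ≤ j) : OutB k [s, t] := by
  refine bl_two s t hok fun X j hX1 hj => ?_
  obtain ⟨h1, h2, h3⟩ := hok
  by_cases hc : j < s.i ∨ s.i + s.k.out ≤ j
  · exact bl_cutDown hX1 _ j (bl_down hC hX1 s k j h1 hj hc)
  · have h4 := H j (by omega) (by omega)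
    have h3' : k - s.k.inn + s.k.out - t.k.inn + t.k.out = l := h3
    obtain ⟨j', h5, h6⟩ := bl_up hC hX1 t (k - s.k.inn + s.k.out) j h2 hj h4
    exact bl_cutUp (a₁ := [s]) hX1 (Iso.refl _ _) t j (h := k - s.k.inn + s.k.out) (l := l)
      ⟨h1, rfl⟩ ⟨h2, h3⟩ _ (Iso.refl _ _) ⟨j', by omega, h6⟩

private theorem bl_ok_flp {X : Word} (h : Ok X 1 1) : Ok (flp X) 1 1 := by
  have h1 : Ok (ARB.sh 1 X ++ [pN 0]) 3 1 := ((h.sh 1).add 1).append ⟨by decide, rfl⟩
  exact ⟨by decide, h1⟩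

private theorem bl_ok_flp' {X : Word} (h : Ok X 1 1) : Ok (flp' X) 1 1 := by
  have h1 : Ok (ARB.sh 1 X ++ [pN 1]) 3 1 := ((h.sh 1).add 1).append ⟨by decide, rfl⟩
  exact ⟨by decide, h1⟩

private theorem bl_zig (hC : St_Comm) (hU : St_BU) (hO : St_BO) {k l : ℕ} (i : ℕ)
    (hok : Ok [pU i, pN (i + 1)] k l) : OutB k [pU i, pN (i + 1)] := by
  refine bl_two _ _ hok fun X j hX1 hj => ?_
  obtain ⟨h1, h2, h3⟩ := hok
  have h1' : i + 0 ≤ k := h1
  have h2' : i + 1 + 2 ≤ k - 0 + 2 := h2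
  have h3' : k - 0 + 2 - 2 + 0 = l := h3
  have hj' : j < k - 0 + 2 := hj
  by_cases hc : j < i ∨ i + 2 ≤ j
  · exact bl_cutDown hX1 _ j (bl_down hC hX1 (pU i) k j h1 hj hc)
  · by_cases hc2 : j = i
    · subst hc2
      obtain ⟨j', h5, h6⟩ := bl_up hC hX1 (pN (j + 1)) (k + 2) j
        (by show j + 1 + 2 ≤ k + 2; omega) (by omega) (Or.inl (by show j < j + 1; omega))
      have h5' : j' < k + 2 - 2 + 0 := h5
      exact bl_cutUp (a₁ := [pU j]) hX1 (Iso.refl _ _) (pN (j + 1)) j (h := k + 2) (l := l)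
        ⟨h1, by show k - 0 + 2 = k + 2; omega⟩
        ⟨by show j + 1 + 2 ≤ k + 2; omega, by show k + 2 - 2 + 0 = l; omega⟩ _ (Iso.refl _ _)
        ⟨j', by omega, h6⟩
    · have hj1 : j = i + 1 := by omega
      subst hj1
      have hX2 := bl_ok_flp' hX1
      obtain ⟨-, hu, -, -⟩ := hU X hX1
      obtain ⟨-, -, ho⟩ := hO X hX1
      obtain ⟨j', h5, h6⟩ := bl_up hC hX2 (pN (i + 1)) (k + 2) i
        (by show i + 1 + 2 ≤ k + 2; omega) (by omega) (Or.inl (by show i < i + 1; omega))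
      have h5' : j' < k + 2 - 2 + 0 := h5
      have h7 := (hu.sh i).le (n' := k) (by omega)
      have e1 : sh i (pU 0 :: sh 1 X) = [pU i] ++ sh (i + 1) X := by
        rw [bl_sc, sh_sh]
      have e2 : sh i (pU 0 :: flp' X) = [pU i] ++ sh i (flp' X) := by
        exact bl_sc i _ _
      rw [e1, e2] at h7
      have h8 := h7.right [pN (i + 1)]
      rw [List.append_assoc, List.append_assoc] at h8
      exact bl_cutUp (a₁ := [pU i]) hX2 ho (pN (i + 1)) i (h := k + 2) (l := l)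
        ⟨h1, by show k - 0 + 2 = k + 2; omega⟩
        ⟨by show i + 1 + 2 ≤ k + 2; omega, by show k + 2 - 2 + 0 = l; omega⟩ _ h8
        ⟨j', by omega, h6⟩

private theorem bl_zag (hC : St_Comm) (hU : St_BU) (hO : St_BO) {k l : ℕ} (i : ℕ)
    (hok : Ok [pU (i + 1), pN i] k l) : OutB k [pU (i + 1), pN i] := by
  refine bl_two _ _ hok fun X j hX1 hj => ?_
  obtain ⟨h1, h2, h3⟩ := hok
  have h1' : i + 1 + 0 ≤ k := h1
  have h2' : i + 2 ≤ k - 0 + 2 := h2
  have h3' : k - 0 + 2 - 2 + 0 = l := h3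
  have hj' : j < k - 0 + 2 := hj
  by_cases hc : j < i + 1 ∨ i + 1 + 2 ≤ j
  · exact bl_cutDown hX1 _ j (bl_down hC hX1 (pU (i + 1)) k j h1 hj hc)
  · by_cases hc2 : j = i + 2
    · subst hc2
      obtain ⟨j', h5, h6⟩ := bl_up hC hX1 (pN i) (k + 2) (i + 2)
        (by show i + 2 ≤ k + 2; omega) (by omega) (Or.inr (by show i + 2 ≤ i + 2; omega))
      have h5' : j' < k + 2 - 2 + 0 := h5
      exact bl_cutUp (a₁ := [pU (i + 1)]) hX1 (Iso.refl _ _) (pN i) (i + 2) (h := k + 2) (l := l)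
        ⟨h1, by show k - 0 + 2 = k + 2; omega⟩
        ⟨by show i + 2 ≤ k + 2; omega, by show k + 2 - 2 + 0 = l; omega⟩ _ (Iso.refl _ _)
        ⟨j', by omega, h6⟩
    · have hj1 : j = i + 1 := by omega
      subst hj1
      have hX2 := bl_ok_flp hX1
      obtain ⟨hu, -, -, -⟩ := hU X hX1
      obtain ⟨-, ho, -⟩ := hO X hX1
      obtain ⟨j', h5, h6⟩ := bl_up hC hX2 (pN i) (k + 2) (i + 2)
        (by show i + 2 ≤ k + 2; omega) (by omega) (Or.inr (by show i + 2 ≤ i + 2; omega))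
      have h5' : j' < k + 2 - 2 + 0 := h5
      have h7 := (hu.sh (i + 1)).le (n' := k) (by omega)
      have e1 : sh (i + 1) (pU 0 :: X) = [pU (i + 1)] ++ sh (i + 1) X := by
        exact bl_sc (i + 1) _ _
      have e2 : sh (i + 1) (pU 0 :: sh 1 (flp X)) = [pU (i + 1)] ++ sh (i + 2) (flp X) := by
        rw [bl_sc, sh_sh]
      rw [e1, e2] at h7
      have h8 := h7.right [pN i]
      rw [List.append_assoc, List.append_assoc] at h8
      exact bl_cutUp (a₁ := [pU (i + 1)]) hX2 ho (pN i) (i + 2) (h := k + 2) (l := l)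
        ⟨h1, by show k - 0 + 2 = k + 2; omega⟩
        ⟨by show i + 2 ≤ k + 2; omega, by show k + 2 - 2 + 0 = l; omega⟩ _ h8
        ⟨j', by omega, h6⟩

theorem thm_BL (hC : St_Comm) (hX : St_BX) (hU : St_BU) (hO : St_BO) : St_BL := by
  intro a b k l hab hok
  rcases hab with h | h
  · cases h with
    | swap s t i m =>
      refine bl_swap hC _ _ hok fun j h1 h2 => ?_
      simp only at h1 h2 ⊢
      left
      omega
    | zig i => exact bl_zig hC hU hO i hok
    | zag i => exact bl_zag hC hU hO i hok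
    | slU i p => exact bl_twoX hC hX _ _ _ hok
    | slN i p => exact bl_Xtwo hC hX _ _ _ hok
    | r1U i p => exact bl_twoX hC hX _ _ _ hok
    | r1N i p => exact bl_Xtwo hC hX _ _ _ hok
    | r2 i p => exact bl_Xtwo hC hX _ _ _ hok
    | r3 i p => exact bl_three hC hX _ _ _ _ _ _ hok
  · cases h with
    | swap s t i m =>
      refine bl_swap hC _ _ hok fun j h1 h2 => ?_
      simp only at h1 h2 ⊢
      right
      omega
    | zig i => exact bl_zero
    | zag i => exact bl_zero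
    | slU i p => exact bl_twoX hC hX _ _ _ hok
    | slN i p => exact bl_Xtwo hC hX _ _ _ hok
    | r1U i p => exact bl_one _
    | r1N i p => exact bl_one _
    | r2 i p => exact bl_zero
    | r3 i p => exact bl_three hC hX _ _ _ _ _ _ hok

end Pool.Agent.ARB
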