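import Pool.Agent.ARB.V.St
import Pool.Agent.ARB.Basic
import Mathlib.Tactic

/-!
# Arborescent knots: closing a bead on the other side
-/

set_option autoImplicit false

namespace Pool.Agent.ARB

theorem thm_BO (hX : St_BX) (hU : St_BU) : St_BO := by
  intro X hOk
  have okU : Ok [pU 0] 0 2 := ⟨by decide, rfl⟩
  have okX : Ok (sh 1 X) 2 2 := hOk.sh 1
  have hA : Iso 0 (pU 0 :: (sh 1 X ++ [pN 0])) (DW X) := by
    have h1 : Iso 0 ([pU 0, pX 0 true] ++ (X ++ [pN 0])) ([pU 0] ++ (X ++ [pN 0])) :=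
      (Iso.r1U true (Nat.le_refl 0)).right _
    have h2 : Iso 0 ([pU 0] ++ ((sh 1 X ++ [pX 0 true]) ++ [pN 0]))
        ([pU 0] ++ ((pX 0 true :: X) ++ [pN 0])) :=
      Iso.mid [pU 0] [pN 0] okU (hX X true hOk).1
    have h3 : Iso 0 (([pU 0] ++ sh 1 X) ++ [pX 0 true, pN 0]) (([pU 0] ++ sh 1 X) ++ [pN 0]) :=
      Iso.left (okU.append okX) (Iso.r1N true (Nat.le_refl 2))
    have e3 : ([pU 0] ++ sh 1 X) ++ [pX 0 true, pN 0] =
        [pU 0] ++ ((sh 1 X ++ [pX 0 true]) ++ [pN 0]) := by simp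
    have e4 : ([pU 0] ++ sh 1 X) ++ [pN 0] = pU 0 :: (sh 1 X ++ [pN 0]) := by simp
    rw [e3, e4] at h3
    exact h3.symm.trans (h2.trans h1)
  refine ⟨hA, ?_, ?_⟩
  · have h1 : Iso 0 ([pU 0] ++ (sh 1 X ++ [pN 0])) ([pU 0] ++ (flp X ++ [pN 0])) :=
      Iso.left okU (hU X hOk).2.2.2
    exact h1.symm.trans hA
  · have h1 : Iso 0 ((pU 0 :: sh 1 X) ++ [pN 0]) ((pU 0 :: flp' X) ++ [pN 0]) :=
      ((hU X hOk).2.1).right _
    exact h1.symm.trans hA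

end Pool.Agent.ARB
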