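import Pool.Agent.ARB.V.St
import Pool.Agent.ARB.Basic
import Mathlib.Tactic

/-!
# Beads in diagrams of the unknot
-/

set_option autoImplicit false

namespace Pool.Agent.ARB

private theorem br_loc {a b : Word} {k l : ℕ} (h : Loc a b ∨ Loc b a) (ha : Ok a k l)
    (hb : Ok b k l) : Iso k a b :=
  Relation.ReflTransGen.single ⟨[], a, b, [], k, l, by simp, by simp, rfl, ha, hb, h⟩

private theorem br_bead {X : Word} (hX : Ok X 1 1) {n j : ℕ} (hj : j < n) : Ok (sh j X) n n := by
  have h1 := (hX.sh j).add (n - (1 + j))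
  have h2 : 1 + j + (n - (1 + j)) = n := by omega
  rw [h2] at h1
  exact h1

private theorem br_base (hO : St_BO) : Rdy O1 := by
  intro X u v n j hX hK hu hj
  unfold O1 at hK
  match u, hK, hu with
  | [], _, hu =>
    have h1 : 0 = n := hu
    omega
  | [p], hK, hu =>
    rw [List.singleton_append, List.cons.injEq] at hK
    obtain ⟨rfl, rfl⟩ := hK
    have h1 : 2 = n := hu.2
    have h2 : j = 0 ∨ j = 1 := by omega
    rcases h2 with rfl | rfl
    · rw [sh_zero]
      exact Iso.refl _ _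
    · exact (hO X hX).1
  | [p, p'], hK, hu =>
    rw [List.cons_append, List.singleton_append, List.cons.injEq, List.cons.injEq] at hK
    obtain ⟨rfl, rfl, rfl⟩ := hK
    have h1 : 0 = n := hu.2.2
    omega
  | p :: p' :: p'' :: u', hK, hu =>
    simp at hK

private theorem br_step (hL : St_BL) {K K' : Word} (hK : Rdy K) (hs : Step 0 K K') :
    Rdy K' := by
  obtain ⟨s, a, b, t, k, l, rfl, rfl, hsk, ha, hb, hloc⟩ := hs
  intro X u v n j hX hE hu hj
  have hba : Iso k b a := br_loc hloc.symm hb ha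
  rcases List.append_eq_append_iff.mp hE with ⟨s₂, hs₂, hv⟩ | ⟨s₂, hs₂, hv⟩
  · -- `u = s ++ s₂`, `b ++ t = s₂ ++ v`
    subst hs₂
    obtain ⟨k', hk', hn⟩ := hu.split
    obtain rfl := hsk.det hk'
    rcases List.append_eq_append_iff.mp hv with ⟨d, hd, ht⟩ | ⟨d, hd, ht⟩
    · -- the cut is in `t`
      subst hd
      subst ht
      obtain ⟨l', hl', hdn⟩ := hn.split
      obtain rfl := hb.det hl'
      have h1 : Iso 0 (s ++ (b ++ (d ++ (sh j X ++ v)))) (s ++ (a ++ (d ++ (sh j X ++ v)))) :=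
        Iso.mid s _ hsk hba
      have h2 := hK X (s ++ (a ++ d)) v n j hX (by simp) (hsk.append (ha.append hdn)) hj
      have e1 : (s ++ (b ++ d)) ++ (sh j X ++ v) = s ++ (b ++ (d ++ (sh j X ++ v))) := by simp
      have e2 : (s ++ (a ++ d)) ++ (sh j X ++ v) = s ++ (a ++ (d ++ (sh j X ++ v))) := by simp
      rw [e1]
      rw [e2] at h2
      exact h1.trans h2
    · -- the cut is in `b`
      subst hd
      subst ht
      obtain ⟨X', hX', hD, h⟩ := hL (s₂ ++ d) a k l hloc.symm hb X s₂ d n j hX rfl hn hj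
      have e1 : (s ++ s₂) ++ (sh j X ++ (d ++ t)) = s ++ ((s₂ ++ (sh j X ++ d)) ++ t) := by simp
      rw [e1]
      refine Iso.trans ?_ hD
      rcases h with ⟨j', hj', hi⟩ | ⟨l', j', hl', hj', hi⟩
      · refine (Iso.mid s t hsk hi).trans ?_
        have h1 : Iso k (sh j' X' ++ (s₂ ++ d)) (sh j' X' ++ a) := Iso.left (br_bead hX' hj') hba
        refine (Iso.mid s t hsk h1).trans ?_
        have h2 := hK X' s (a ++ t) k j' hX' rfl hsk hj'
        have e2 : s ++ ((sh j' X' ++ a) ++ t) = s ++ (sh j' X' ++ (a ++ t)) := by simp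
        rw [e2]
        exact h2
      · obtain rfl := hb.det hl'
        refine (Iso.mid s t hsk hi).trans ?_
        have h1 : Iso k ((s₂ ++ d) ++ sh j' X') (a ++ sh j' X') := hba.right _
        refine (Iso.mid s t hsk h1).trans ?_
        have h2 := hK X' (s ++ a) t l j' hX' (by simp) (hsk.append ha) hj'
        have e2 : s ++ ((a ++ sh j' X') ++ t) = (s ++ a) ++ (sh j' X' ++ t) := by simp
        rw [e2]
        exact h2
  · -- `s = u ++ s₂`, `v = s₂ ++ (b ++ t)`: the cut is in `s`
    subst hs₂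
    subst hv
    obtain ⟨n', hn', hn⟩ := hsk.split
    obtain rfl := hu.det hn'
    have hbd : Ok (sh j X) n n := br_bead hX hj
    have hc : Ok (u ++ (sh j X ++ s₂)) 0 k := hu.append (hbd.append hn)
    have h1 := Iso.mid (u ++ (sh j X ++ s₂)) t hc hba
    have h2 := hK X u (s₂ ++ (a ++ t)) n j hX (by simp) hu hj
    have e1 : u ++ (sh j X ++ (s₂ ++ (b ++ t))) = (u ++ (sh j X ++ s₂)) ++ (b ++ t) := by simp
    have e2 : u ++ (sh j X ++ (s₂ ++ (a ++ t))) = (u ++ (sh j X ++ s₂)) ++ (a ++ t) := by simp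
    rw [e1]
    rw [e2] at h2
    exact h1.trans h2

theorem thm_BR (hL : St_BL) (hO : St_BO) : St_BR := by
  intro K hK
  induction hK using Relation.ReflTransGen.head_induction_on with
  | refl => exact br_base hO
  | head h _ ih => exact br_step hL ih h.symm

end Pool.Agent.ARB
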