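import Pool.Agent.ARB.V.St
import Pool.Agent.ARB.Basic
import Mathlib.Tactic

/-!
# Arborescent knots: beads slide through crossings, cups and caps
-/

set_option autoImplicit false

namespace Pool.Agent.ARB

private theorem bxu_one (hN : St_Nat) (X : Word) (p : Bool) (hX : Ok X 1 1) :
    Iso 2 (sh 1 X ++ [pX 0 p]) (pX 0 p :: X) := (hN p X 1 1 hX).symm

theorem thm_BX (hN : St_Nat) : St_BX := by
  intro X p hX
  refine ⟨bxu_one hN X p hX, ?_⟩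
  have h1 : Iso 2 (X ++ [pX 0 p]) ([pX 0 p, pX 0 (!p)] ++ (X ++ [pX 0 p])) :=
    (Iso.r2 (n := 2) (i := 0) p (by decide)).symm.right (X ++ [pX 0 p])
  have h2 : Iso 2 ([pX 0 p] ++ ((pX 0 (!p) :: X) ++ [pX 0 p]))
      ([pX 0 p] ++ ((sh 1 X ++ [pX 0 (!p)]) ++ [pX 0 p])) :=
    Iso.mid (k := 2) [pX 0 p] [pX 0 p] ⟨Nat.le_refl 2, rfl⟩ (bxu_one hN X (!p) hX).symm
  have h3 : Iso 2 ((pX 0 p :: sh 1 X) ++ [pX 0 (!p), pX 0 p]) ((pX 0 p :: sh 1 X) ++ []) := by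
    refine Iso.left (k := 2) ?_ (Iso.r2' (n := 2) (i := 0) p (by decide))
    exact ⟨Nat.le_refl 2, hX.sh 1⟩
  have e1 : [pX 0 p] ++ ((sh 1 X ++ [pX 0 (!p)]) ++ [pX 0 p]) =
      (pX 0 p :: sh 1 X) ++ [pX 0 (!p), pX 0 p] := by simp
  rw [e1] at h2
  rw [List.append_nil] at h3
  exact (h1.trans h2).trans h3

theorem thm_BU (hC : St_Comm) : St_BU := by
  intro X hX
  have hX2 : Ok X 2 2 := hX.add 1
  have hUX : Ok (pU 0 :: X) 0 2 := ⟨by decide, hX2⟩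
  have hUX' : Ok (pU 0 :: sh 1 X) 0 2 := ⟨by decide, hX.sh 1⟩
  have hU : Ok [pU 0] 0 2 := ⟨by decide, rfl⟩
  have hN : Ok [pN 0] 2 0 := ⟨by decide, rfl⟩
  have hsw : Iso 4 [pN 0, pN 0] [pN 2, pN 0] := Iso.swap .N .N 0 2 (by decide) (by decide)
  refine ⟨?_, ?_, ?_, ?_⟩
  · have h1 : Iso 0 ([pU 0] ++ sh 2 (pU 0 :: X)) (sh 0 (pU 0 :: X) ++ [pU 0]) :=
      hC [pU 0] (pU 0 :: X) 0 2 0 2 hU hUX
    rw [sh_zero] at h1
    have h2 := h1.right [pN 1]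
    have h3 : Iso 0 ((pU 0 :: X) ++ [pU 0, pN 1]) ((pU 0 :: X) ++ []) :=
      Iso.left hUX (Iso.zig (n := 2) (i := 0) (by decide))
    rw [List.append_nil] at h3
    have e1 : ([pU 0] ++ sh 2 (pU 0 :: X)) ++ [pN 1] = pU 0 :: sh 1 (flp X) := by
      rw [flp, sh_cons, sh_cons, sh_append, sh_sh]
      rfl
    have e2 : ((pU 0 :: X) ++ [pU 0]) ++ [pN 1] = (pU 0 :: X) ++ [pU 0, pN 1] := by simp
    rw [e1, e2] at h2
    exact (h2.trans h3).symm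
  · have h1 : Iso 0 ((pU 0 :: sh 1 X) ++ sh 2 [pU 0]) (sh 0 [pU 0] ++ (pU 0 :: sh 1 X)) :=
      hC (pU 0 :: sh 1 X) [pU 0] 0 2 0 2 hUX' hU
    rw [sh_zero] at h1
    have h2 := h1.right [pN 1]
    have h3 : Iso 0 ((pU 0 :: sh 1 X) ++ [pU 2, pN 1]) ((pU 0 :: sh 1 X) ++ []) :=
      Iso.left hUX' (Iso.zag (n := 2) (i := 1) (by decide))
    rw [List.append_nil] at h3
    have e1 : ([pU 0] ++ (pU 0 :: sh 1 X)) ++ [pN 1] = pU 0 :: flp' X := rfl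
    have e2 : ((pU 0 :: sh 1 X) ++ sh 2 [pU 0]) ++ [pN 1] =
        (pU 0 :: sh 1 X) ++ [pU 2, pN 1] := by
      rw [List.append_assoc]
      rfl
    rw [e1, e2] at h2
    exact h3.symm.trans h2
  · have e1 : sh 1 (flp' X) ++ [pN 0] = (pU 1 :: sh 2 X) ++ [pN 2, pN 0] := by
      rw [flp', sh_cons, sh_append, sh_sh]
      show _ :: _ ++ _ = _
      rw [List.cons_append, List.append_assoc]
      rfl
    have hU2 : Ok (pU 1 :: sh 2 X) 2 4 := ⟨by decide, (hX.sh 2).add 1⟩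
    have h1 : Iso 2 ((pU 1 :: sh 2 X) ++ [pN 0, pN 0]) ((pU 1 :: sh 2 X) ++ [pN 2, pN 0]) :=
      Iso.left hU2 hsw
    have h2 : Iso 3 ([pN 0] ++ sh 0 X) (sh 2 X ++ [pN 0]) := hC [pN 0] X 2 0 1 1 hN hX
    rw [sh_zero] at h2
    have h3 : Iso 2 ([pU 1] ++ (([pN 0] ++ X) ++ [pN 0])) ([pU 1] ++ ((sh 2 X ++ [pN 0]) ++ [pN 0])) :=
      Iso.mid (k := 4) [pU 1] [pN 0] ⟨by decide, rfl⟩ (h2.add 1)
    have h4 : Iso 2 ([pU 1, pN 0] ++ (X ++ [pN 0])) ([] ++ (X ++ [pN 0])) :=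
      (Iso.zag (n := 2) (i := 0) (by decide)).right _
    have e2 : [pU 1] ++ ((sh 2 X ++ [pN 0]) ++ [pN 0]) = (pU 1 :: sh 2 X) ++ [pN 0, pN 0] := by simp
    rw [e2] at h3
    rw [e1]
    exact (h4.symm.trans h3).trans h1
  · have e1 : flp X ++ [pN 0] = (pU 1 :: sh 1 X) ++ [pN 0, pN 0] := by
      rw [flp, List.cons_append, List.append_assoc]
      rfl
    have hU2 : Ok (pU 1 :: sh 1 X) 2 4 := ⟨by decide, (hX.sh 1).add 2⟩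
    have h1 : Iso 2 ((pU 1 :: sh 1 X) ++ [pN 0, pN 0]) ((pU 1 :: sh 1 X) ++ [pN 2, pN 0]) :=
      Iso.left hU2 hsw
    have h2 : Iso 4 (sh 1 X ++ sh 2 [pN 0]) (sh 2 [pN 0] ++ sh 1 X) :=
      hC (sh 1 X) [pN 0] 2 2 2 0 (hX.sh 1) hN
    have h3 : Iso 2 ([pU 1] ++ ((sh 1 X ++ [pN 2]) ++ [pN 0])) ([pU 1] ++ (([pN 2] ++ sh 1 X) ++ [pN 0])) :=
      Iso.mid (k := 4) [pU 1] [pN 0] ⟨by decide, rfl⟩ h2
    have h4 : Iso 2 ([pU 1, pN 2] ++ (sh 1 X ++ [pN 0])) ([] ++ (sh 1 X ++ [pN 0])) :=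
      (Iso.zig (n := 2) (i := 1) (by decide)).right _
    have e2 : [pU 1] ++ ((sh 1 X ++ [pN 2]) ++ [pN 0]) = (pU 1 :: sh 1 X) ++ [pN 2, pN 0] := by simp
    rw [e2] at h3
    rw [e1]
    exact ((h1.trans h3).trans h4).symm

end Pool.Agent.ARB
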