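import Pool.Agent.ARB.V.St
import Pool.Agent.ARB.Basic
import Mathlib.Tactic

/-!
# Flype through a rotated tangle
-/

set_option autoImplicit false

namespace Pool.Agent.ARB

private lemma f_slU {n i : ℕ} (p : Bool) (h : i + 1 ≤ n) :
    Iso n [pU i, pX (i + 1) p] [pU (i + 1), pX i (!p)] := by
  have h1 := Iso.slU (n := n) (i := i) (!p) h
  rw [Bool.not_not] at h1
  exact h1.symm

private lemma f_front (p : Bool) :
    Iso 2 [pU 0, pX 0 p, pX 1 p, pX 2 p] [pU 2, pX 1 (!p), pX 0 (!p)] := by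
  have h1 : Iso 2 ([pU 0, pX 0 p] ++ [pX 1 p, pX 2 p]) ([pU 0] ++ [pX 1 p, pX 2 p]) :=
    (Iso.r1U p (by norm_num)).right _
  have h2 : Iso 2 ([pU 0, pX 1 p] ++ [pX 2 p]) ([pU 1, pX 0 (!p)] ++ [pX 2 p]) :=
    (f_slU p (by norm_num)).right _
  have h3 : Iso 2 ([pU 1] ++ [pX 0 (!p), pX 2 p]) ([pU 1] ++ [pX 2 p, pX 0 (!p)]) :=
    Iso.left (k := 4) ⟨by decide, rfl⟩
      (Iso.swap (n := 4) (.X (!p)) (.X p) 0 2 (Nat.le_refl 2) (Nat.le_refl 4))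
  have h4 : Iso 2 ([pU 1, pX 2 p] ++ [pX 0 (!p)]) ([pU 2, pX 1 (!p)] ++ [pX 0 (!p)]) :=
    (f_slU (i := 1) p (by norm_num)).right _
  exact h1.trans (h2.trans (h3.trans h4))

theorem thm_F (hC : St_Comm) (hN : St_Nat) (hK : St_K) : St_F := by
  intro A p hA
  obtain ⟨T, hT⟩ : ∃ T, T = pX 0 p :: (A ++ [pX 0 (!p)]) := ⟨_, rfl⟩
  have okX : ∀ q : Bool, Ok [pX 0 q] 2 2 := fun q => ⟨Nat.le_refl 2, rfl⟩
  have hTok : Ok T 2 2 := by
    rw [hT]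
    exact (okX p).append (hA.append (okX (!p)))
  -- `A` in terms of `T`
  have hAT : Iso 2 A (pX 0 (!p) :: (T ++ [pX 0 p])) := by
    rw [hT]
    have h1 : Iso 2 ([pX 0 (!p), pX 0 p] ++ (A ++ [pX 0 (!p), pX 0 p]))
        ([] ++ (A ++ [pX 0 (!p), pX 0 p])) := (Iso.r2' p (by norm_num)).right _
    have h2 : Iso 2 (A ++ [pX 0 (!p), pX 0 p]) (A ++ []) :=
      Iso.left hA (Iso.r2' p (by norm_num))
    rw [List.append_nil] at h2
    have h3 := h1.trans h2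
    have e : [pX 0 (!p), pX 0 p] ++ (A ++ [pX 0 (!p), pX 0 p]) =
        pX 0 (!p) :: ((pX 0 p :: (A ++ [pX 0 (!p)])) ++ [pX 0 p]) := by simp
    rw [e] at h3
    exact h3.symm
  -- the left side
  have hL : Iso 2 (pX 0 p :: rotW A) ([pU 2, pX 1 (!p), pX 0 (!p)] ++ (T ++ [pN 1])) := by
    have h1 := congR _ _ hAT
    have h2 := hK (pX 0 (!p) :: T) p ((okX (!p)).append hTok)
    have h3 : Iso 2 ([pX 0 p] ++ rotW A) ([pX 0 p] ++
        (pX 0 (!p) :: pU 2 :: pX 1 (!p) :: ((pX 0 (!p) :: T) ++ [pN 1]))) :=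
      Iso.left (okX p) (h1.trans h2)
    have h4 : Iso 2 ([pX 0 p, pX 0 (!p)] ++ ([pU 2, pX 1 (!p), pX 0 (!p)] ++ (T ++ [pN 1])))
        ([] ++ ([pU 2, pX 1 (!p), pX 0 (!p)] ++ (T ++ [pN 1]))) :=
      (Iso.r2 p (by norm_num)).right _
    exact h3.trans h4
  -- the right side
  have hR : Iso 2 ([pU 0, pX 0 p, pX 1 p, pX 2 p] ++ (T ++ [pN 1])) (rotW' T ++ [pX 0 p]) := by
    have h1 : Ok (T ++ [pN 1]) 3 1 := (hTok.add 1).append ⟨by decide, rfl⟩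
    have h2 := hN p (T ++ [pN 1]) 3 1 h1
    have h3 : Iso 2 ([pU 0] ++ (ov p 3 ++ (T ++ [pN 1])))
        ([pU 0] ++ (sh 1 (T ++ [pN 1]) ++ ov p 1)) :=
      Iso.left (k := 4) ⟨by decide, rfl⟩ h2
    have e1 : [pU 0] ++ (ov p 3 ++ (T ++ [pN 1])) =
        [pU 0, pX 0 p, pX 1 p, pX 2 p] ++ (T ++ [pN 1]) := rfl
    have e2 : [pU 0] ++ (sh 1 (T ++ [pN 1]) ++ ov p 1) = rotW' T ++ [pX 0 p] := by
      simp [sh, ov, rotW', List.range_succ]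
    rw [e1, e2] at h3
    exact h3
  rw [← hT]
  exact hL.trans (((f_front p).right _).symm.trans hR)

end Pool.Agent.ARB
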