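import Pool.Agent.ARB.V.St
import Pool.Agent.ARB.Basic
import Mathlib.Tactic

/-!
# Rotation by 180 degrees
-/

set_option autoImplicit false

namespace Pool.Agent.ARB

private theorem fl_okX {n i : ℕ} (p : Bool) (h : i + 2 ≤ n) : Ok [pX i p] n n := by
  refine ⟨h, ?_⟩
  show n - 2 + 2 = n
  omega

private theorem fl_top (p : Bool) : Iso 6 [pX 2 p, pN 1, pN 0] [pX 0 p, pN 1, pN 0] := by
  have h1 : Iso 6 ([pX 2 p, pN 1] ++ [pN 0]) ([pX 1 (!p), pN 2] ++ [pN 0]) := by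
    refine Iso.right ?_ _
    have h := Iso.slN (n := 6) (i := 1) (!p) (by decide)
    rw [Bool.not_not] at h
    exact h.symm
  have h2 : Iso 6 ([pX 1 (!p)] ++ [pN 2, pN 0]) ([pX 1 (!p)] ++ [pN 0, pN 0]) :=
    Iso.left (fl_okX (!p) (by decide))
      (Iso.swap (n := 6) Kind.N Kind.N 0 2 (by decide) (by decide)).symm
  have h3 : Iso 6 ([pX 1 (!p), pN 0] ++ [pN 0]) ([pX 0 p, pN 1] ++ [pN 0]) :=
    (Iso.slN (n := 6) (i := 0) p (by decide)).symm.right _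
  exact h1.trans (h2.trans h3)

private theorem fl_eq (B : Word) :
    rotW (rotW B) = [pU 2, pU 3] ++ (sh 2 B ++ [pN 1, pN 0]) := by
  unfold rotW
  rw [sh_cons, sh_append, sh_sh]
  simp [sh]

theorem thm_FL (hC : St_Comm) : St_FL := by
  refine ⟨?_, ?_, ?_⟩
  · intro A p hA
    rw [fl_eq, fl_eq]
    have hA6 : Ok (sh 2 A) 6 6 := (hA.sh 2).add 2
    have hU : Ok [pU 2, pU 3] 2 6 := ⟨by decide, by decide, rfl⟩
    have e1 : sh 2 (A ++ [pX 0 p]) ++ [pN 1, pN 0] = sh 2 A ++ [pX 2 p, pN 1, pN 0] := by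
      rw [sh_append, List.append_assoc]
      rfl
    rw [e1]
    have h1 : Iso 2 ([pU 2, pU 3] ++ (sh 2 A ++ [pX 2 p, pN 1, pN 0]))
        ([pU 2, pU 3] ++ (sh 2 A ++ [pX 0 p, pN 1, pN 0])) :=
      Iso.left hU (Iso.left hA6 (fl_top p))
    have hw : Ok ([pU 0, pU 1] ++ A) 0 4 := by
      refine Ok.append (k := 4) ⟨by decide, by decide, rfl⟩ ?_
      exact hA.add 2
    have h2 := hC [pX 0 p] ([pU 0, pU 1] ++ A) 2 2 0 4 (fl_okX p (le_refl 2)) hw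
    have e2 : sh 2 ([pU 0, pU 1] ++ A) = [pU 2, pU 3] ++ sh 2 A := by
      rw [sh_append]
      rfl
    rw [e2] at h2
    have h3 : Iso 2 (([pU 2, pU 3] ++ sh 2 A) ++ [pX 0 p] ++ [pN 1, pN 0])
        (([pX 0 p] ++ ([pU 2, pU 3] ++ sh 2 A)) ++ [pN 1, pN 0]) := Iso.right h2.symm _
    have e3 : ([pU 2, pU 3] ++ sh 2 A) ++ [pX 0 p] ++ [pN 1, pN 0] =
        [pU 2, pU 3] ++ (sh 2 A ++ [pX 0 p, pN 1, pN 0]) := by simp
    have e4 : ([pX 0 p] ++ ([pU 2, pU 3] ++ sh 2 A)) ++ [pN 1, pN 0] =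
        pX 0 p :: ([pU 2, pU 3] ++ (sh 2 A ++ [pN 1, pN 0])) := by simp
    rw [e3, e4] at h3
    exact h1.trans h3
  · show Iso 2 [pU 2, pU 3, pN 1, pN 0] []
    have h1 : Iso 2 ([pU 2] ++ ([pU 3, pN 1] ++ [pN 0])) ([pU 2] ++ ([pN 1, pU 1] ++ [pN 0])) :=
      Iso.mid (k := 4) _ _ ⟨by decide, rfl⟩
        (Iso.swap (n := 4) Kind.N Kind.U 1 3 (by decide) (by decide)).symm
    have h2 : Iso 2 ([pU 2, pN 1] ++ [pU 1, pN 0]) ([] ++ [pU 1, pN 0]) :=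
      (Iso.zag (n := 2) (i := 1) (by decide)).right _
    have h3 : Iso 2 [pU 1, pN 0] [] := Iso.zag (n := 2) (i := 0) (by decide)
    exact h1.trans (h2.trans h3)
  · intro p
    show Iso 2 [pU 2, pN 0, pX 0 p] [pU 2, pN 0]
    have h0 : Iso 2 [pU 2, pN 0] [pN 0, pU 0] :=
      (Iso.swap (n := 2) Kind.N Kind.U 0 2 (by decide) (by decide)).symm
    have h1 : Iso 2 ([pU 2, pN 0] ++ [pX 0 p]) ([pN 0, pU 0] ++ [pX 0 p]) := h0.right _
    have h2 : Iso 2 ([pN 0] ++ [pU 0, pX 0 p]) ([pN 0] ++ [pU 0]) :=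
      Iso.left (k := 0) ⟨by decide, rfl⟩ (Iso.r1U (n := 0) (i := 0) p (by decide))
    exact h1.trans (h2.trans h0.symm)

end Pool.Agent.ARB
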