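import Pool.Agent.ARB.V.St
import Pool.Agent.ARB.Basic
import Mathlib.Tactic

/-!
# The relation of order three
-/

set_option autoImplicit false

namespace Pool.Agent.ARB

theorem thm_J (hC : St_Comm) (hK : St_K) : St_J := by
  intro A p hA
  have h1 := hK (rotW A) p (ok_rotW hA)
  refine h1.trans ?_
  -- above `X 0, U 2, X 1` there are four strands
  have hA6 : Ok (sh 1 A) 6 6 := (hA.sh 1).add 3
  have a1 : Iso 6 (sh 1 A ++ [pN 0, pN 1]) (sh 1 A ++ [pN 3, pN 0]) := by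
    refine Iso.left hA6 ?_
    exact Iso.swap (n := 6) Kind.N Kind.N 0 3 (by decide) (by decide)
  have a2 : Iso 6 ((sh 1 A ++ [pN 3]) ++ [pN 0]) (([pN 3] ++ sh 1 A) ++ [pN 0]) := by
    refine Iso.right ?_ _
    have h := hC (sh 1 A) [pN 0] 3 3 2 0 (hA.sh 1) ⟨by decide, rfl⟩
    exact h.add 1
  have a3 : Iso 4 ([pU 2] ++ (sh 1 A ++ [pN 0, pN 1])) ([pU 2] ++ (([pN 3] ++ sh 1 A) ++ [pN 0])) := by
    refine Iso.left (k := 6) ⟨by decide, rfl⟩ (a1.trans ?_)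
    have e : sh 1 A ++ [pN 3, pN 0] = (sh 1 A ++ [pN 3]) ++ [pN 0] := by simp
    rw [e]
    exact a2
  have a4 : Iso 4 ([pU 2, pN 3] ++ (sh 1 A ++ [pN 0])) ([] ++ (sh 1 A ++ [pN 0])) :=
    (Iso.zig (n := 4) (i := 2) (by decide)).right _
  have a5 : Iso 4 ([pU 2] ++ (sh 1 A ++ [pN 0, pN 1])) (sh 1 A ++ [pN 0]) := by
    refine a3.trans ?_
    have e : [pU 2] ++ (([pN 3] ++ sh 1 A) ++ [pN 0]) = [pU 2, pN 3] ++ (sh 1 A ++ [pN 0]) := by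
      simp
    rw [e]
    exact a4
  have a6 : Iso 2 ([pX 0 (!p), pU 2, pX 1 (!p)] ++ ([pU 2] ++ (sh 1 A ++ [pN 0, pN 1])))
      ([pX 0 (!p), pU 2, pX 1 (!p)] ++ (sh 1 A ++ [pN 0])) := by
    refine Iso.left (k := 4) ?_ a5
    exact ⟨Nat.le_refl 2, by show 2 ≤ 2; omega, by show 3 ≤ 4; omega, rfl⟩
  have e1 : pX 0 (!p) :: pU 2 :: pX 1 (!p) :: (rotW A ++ [pN 1]) =
      [pX 0 (!p), pU 2, pX 1 (!p)] ++ ([pU 2] ++ (sh 1 A ++ [pN 0, pN 1])) := by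
    simp [rotW]
  rw [e1]
  exact a6

end Pool.Agent.ARB
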