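import Pool.Agent.ARB.V.St
import Pool.Agent.ARB.Basic
import Mathlib.Tactic

/-!
# Rotation of a tangle with one more crossing
-/

set_option autoImplicit false

namespace Pool.Agent.ARB

private theorem k_okX {n i : ℕ} (p : Bool) (h : i + 2 ≤ n) : Ok [pX i p] n n := by
  refine ⟨h, ?_⟩
  show n - 2 + 2 = n
  omega

theorem thm_K (_hC : St_Comm) (hN : St_Nat) : St_K := by
  intro A p hA
  have hA4 : Ok (sh 1 A) 4 4 := (hA.sh 1).add 1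
  -- the part above the cup
  have b1 : Iso 4 (sh 1 A ++ [pX 1 p, pN 0]) (sh 1 A ++ [pX 0 (!p), pN 1]) := by
    refine Iso.left hA4 ?_
    have h := Iso.slN (n := 4) (i := 0) (!p) (by decide)
    rw [Bool.not_not] at h
    exact h.symm
  have b2 : Iso 4 (sh 1 A ++ ([pX 0 (!p)] ++ [pN 1]))
      (sh 1 A ++ ([pX 0 (!p)] ++ [pX 1 (!p), pN 1])) :=
    Iso.left hA4 (Iso.left (k_okX (!p) (by decide)) (Iso.r1N (i := 1) (!p) (by decide)).symm)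
  have b3 : Iso 4 ((sh 1 A ++ ov (!p) 2) ++ [pN 1]) ((ov (!p) 2 ++ A) ++ [pN 1]) :=
    (((hN (!p) A 2 2 hA).add 1).symm).right _
  have e3 : (sh 1 A ++ ov (!p) 2) ++ [pN 1] =
      sh 1 A ++ ([pX 0 (!p)] ++ [pX 1 (!p), pN 1]) := by
    rw [List.append_assoc]
    rfl
  rw [e3] at b3
  have b4 : Iso 4 (sh 1 A ++ [pX 1 p, pN 0]) ((ov (!p) 2 ++ A) ++ [pN 1]) :=
    b1.trans (b2.trans b3)
  have c1 : Iso 2 ([pU 2] ++ (sh 1 A ++ [pX 1 p, pN 0]))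
      ([pU 2] ++ ((ov (!p) 2 ++ A) ++ [pN 1])) :=
    Iso.left (k := 4) ⟨by decide, rfl⟩ b4
  have c2 : Iso 2 ([pU 2, pX 0 (!p)] ++ (pX 1 (!p) :: (A ++ [pN 1])))
      ([pX 0 (!p), pU 2] ++ (pX 1 (!p) :: (A ++ [pN 1]))) :=
    (Iso.swap (n := 2) (Kind.X (!p)) Kind.U 0 2 (Nat.le_refl 2) (by decide)).symm.right _
  have e1 : rotW (A ++ [pX 0 p]) = [pU 2] ++ (sh 1 A ++ [pX 1 p, pN 0]) := by
    show pU 2 :: (sh 1 (A ++ [pX 0 p]) ++ [pN 0]) = pU 2 :: (sh 1 A ++ [pX 1 p, pN 0])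
    rw [sh_append, List.append_assoc]
    rfl
  rw [e1]
  exact c1.trans c2

end Pool.Agent.ARB
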