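import Pool.Agent.ARB.V.St
import Pool.Agent.ARB.Basic
import Mathlib.Tactic

/-!
# ARB-V, module Mod: the modular group acting on an orbit
-/

set_option autoImplicit false

namespace Pool.Agent.ARB

section

variable {X : Type} (u : Equiv.Perm X) (R : X → X) (c : X)

/-- the canonical element with slope `p / q`, by the euclidean algorithm -/
noncomputable def mod_F (q : ℕ) (p : ℤ) : X :=
  if _h : q = 0 then R c
  else (u ^ (p / (q : ℤ))) (R (mod_F (p % (q : ℤ)).toNat (-(q : ℤ))))
termination_by q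
decreasing_by
  have h1 := Int.emod_lt_of_pos p (show (0 : ℤ) < q by omega)
  have h2 := Int.emod_nonneg p (show (q : ℤ) ≠ 0 by omega)
  omega

theorem mod_F_zero (p : ℤ) : mod_F u R c 0 p = R c := by
  rw [mod_F]
  simp

theorem mod_F_pos (q : ℕ) (hq : 0 < q) (p : ℤ) :
    mod_F u R c q p = (u ^ (p / (q : ℤ))) (R (mod_F u R c (p % (q : ℤ)).toNat (-(q : ℤ)))) := by
  rw [mod_F, dif_neg (by omega)]

theorem mod_F_add (hc : u (R c) = R c) (q : ℕ) (p : ℤ) :
    u (mod_F u R c q p) = mod_F u R c q (p + q) := by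
  rcases Nat.eq_zero_or_pos q with hq | hq
  · subst hq
    rw [mod_F_zero, mod_F_zero, hc]
  · rw [mod_F_pos u R c q hq, mod_F_pos u R c q hq (p + q), Int.add_emod_right,
      Int.add_ediv_of_dvd_right (dvd_refl _), Int.ediv_self (by omega), zpow_add, zpow_one,
      ← Equiv.Perm.mul_apply, ← (Commute.self_zpow u (p / (q : ℤ))).eq]

theorem mod_F_sub (hc : u (R c) = R c) (q : ℕ) (p : ℤ) :
    u⁻¹ (mod_F u R c q p) = mod_F u R c q (p - q) := by
  have h := mod_F_add u R c hc q (p - q)
  rw [sub_add_cancel] at h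
  rw [← h]
  exact u.symm_apply_apply _

variable (hR : ∀ x, R (R x) = x) (hRU : ∀ x, R (u (R x)) = u⁻¹ (R (u⁻¹ x)))
  (hc : u (R c) = R c)

include hR

theorem mod_lt (p q : ℕ) (hq : 0 < q) (h : p < q) :
    R (mod_F u R c q p) = mod_F u R c p (-(q : ℤ)) := by
  rw [mod_F_pos u R c q hq, Int.ediv_eq_zero_of_lt (by omega) (by omega),
    Int.emod_eq_of_lt (by omega) (by omega), zpow_zero, Equiv.Perm.one_apply, hR,
    Int.toNat_natCast]

theorem mod_gt (p q : ℕ) (hp : 0 < p) (h : q < p) :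
    R (mod_F u R c q (-(p : ℤ))) = mod_F u R c p q := by
  rw [← mod_lt u R c hR q p hp h, hR]

theorem mod_self (q : ℕ) (hq : 0 < q) : mod_F u R c q q = u c := by
  rw [mod_F_pos u R c q hq, Int.ediv_self (by omega), Int.emod_self, Int.toNat_zero, mod_F_zero,
    hR, zpow_one]

theorem mod_nself (q : ℕ) (hq : 0 < q) : mod_F u R c q (-(q : ℤ)) = u⁻¹ c := by
  rw [mod_F_pos u R c q hq, Int.neg_ediv_of_dvd (dvd_refl _), Int.ediv_self (by omega),
    Int.neg_emod_self, Int.toNat_zero, mod_F_zero, hR, zpow_neg, zpow_one]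

include hRU hc

theorem mod_Ruc : R (u c) = u⁻¹ c := by
  have h1 := hRU (R c)
  rw [hR] at h1
  have h2 : u⁻¹ (R c) = R c := by
    rw [Equiv.Perm.inv_eq_iff_eq, hc]
  rw [h1, h2, hR]

theorem mod_E (q : ℕ) (hq : 0 < q) (p : ℕ) (hp : 0 < p) :
    R (mod_F u R c q p) = mod_F u R c p (-(q : ℤ)) := by
  induction p using Nat.strong_induction_on with
  | _ p ih =>
    rcases lt_trichotomy p q with h | h | h
    · exact mod_lt u R c hR p q hq h
    · subst h
      rw [mod_self u R c hR p hp, mod_nself u R c hR p hp, mod_Ruc u R c hR hRU hc]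
    · obtain ⟨p', rfl⟩ : ∃ p', p = p' + q := ⟨p - q, by omega⟩
      have h1 := ih p' (by omega) (by omega)
      have h2 : mod_F u R c q ((p' + q : ℕ) : ℤ) = u (mod_F u R c q p') := by
        rw [mod_F_add u R c hc]
        push_cast
        rfl
      have h3 : R (u (mod_F u R c q p')) = u⁻¹ (R (u⁻¹ (R (mod_F u R c q p')))) := by
        rw [← hRU, hR]
      have h4 : (-(q : ℤ)) - (p' : ℕ) = -((p' + q : ℕ) : ℤ) := by
        push_cast
        ring
      rw [h2, h3, h1, mod_F_sub u R c hc, h4, mod_gt u R c hR (p' + q) p' (by omega) (by omega),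
        mod_F_sub u R c hc]
      congr 1
      push_cast
      ring

theorem mod_E' (q : ℕ) (hq : 0 < q) (p : ℕ) (hp : 0 < p) :
    R (mod_F u R c q (-(p : ℤ))) = mod_F u R c p q := by
  rw [← mod_E u R c hR hRU hc p hp q hq, hR]

end

section

variable {X : Type} (u : Equiv.Perm X) (R : X → X) (c : X)

/-- the canonical element with slope `(p, q)` -/
noncomputable def mod_G (p q : ℤ) : X := mod_F u R c q.natAbs (q.sign * p)

theorem mod_G_pos (p : ℤ) (q : ℕ) (hq : 0 < q) : mod_G u R c p q = mod_F u R c q p := by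
  unfold mod_G
  rw [Int.natAbs_natCast, Int.sign_eq_one_of_pos (by omega), one_mul]

theorem mod_G_neg (p : ℤ) (q : ℕ) (hq : 0 < q) :
    mod_G u R c p (-(q : ℤ)) = mod_F u R c q (-p) := by
  unfold mod_G
  rw [Int.natAbs_neg, Int.natAbs_natCast, Int.sign_neg, Int.sign_eq_one_of_pos (by omega),
    neg_one_mul]

theorem mod_G_zero (p : ℤ) : mod_G u R c p 0 = R c := by
  unfold mod_G
  rw [Int.natAbs_zero, mod_F_zero]

theorem mod_G_symm (p q : ℤ) : mod_G u R c (-p) (-q) = mod_G u R c p q := by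
  unfold mod_G
  rw [Int.natAbs_neg, Int.sign_neg, neg_mul_neg]

theorem mod_G_add (hc : u (R c) = R c) (p q : ℤ) :
    u (mod_G u R c p q) = mod_G u R c (p + q) q := by
  unfold mod_G
  rw [mod_F_add u R c hc, mul_add, Int.sign_mul_self_eq_natAbs]

theorem mod_G_sub (hc : u (R c) = R c) (p q : ℤ) :
    u⁻¹ (mod_G u R c p q) = mod_G u R c (p - q) q := by
  have h := mod_G_add u R c hc (p - q) q
  rw [sub_add_cancel] at h
  rw [← h]
  exact u.symm_apply_apply _

variable (hR : ∀ x, R (R x) = x) (hRU : ∀ x, R (u (R x)) = u⁻¹ (R (u⁻¹ x)))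
  (hc : u (R c) = R c)

include hR

theorem mod_F_at_zero (q : ℕ) (hq : 0 < q) : mod_F u R c q 0 = c := by
  rw [mod_F_pos u R c q hq, Int.zero_ediv, Int.zero_emod, Int.toNat_zero, mod_F_zero, hR,
    zpow_zero, Equiv.Perm.one_apply]

theorem mod_G_at_zero (q : ℤ) (hq : q ≠ 0) : mod_G u R c 0 q = c := by
  unfold mod_G
  rw [mul_zero, mod_F_at_zero u R c hR _ (by omega)]

include hRU hc

theorem mod_G_R (p q : ℤ) (h : p ≠ 0 ∨ q ≠ 0) : R (mod_G u R c p q) = mod_G u R c q (-p) := by
  rcases eq_or_ne p 0 with hp | hp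
  · subst hp
    have hq : q ≠ 0 := by
      rcases h with h | h
      · exact absurd rfl h
      · exact h
    rw [mod_G_at_zero u R c hR q hq, neg_zero, mod_G_zero]
  rcases eq_or_ne q 0 with hq | hq
  · subst hq
    rw [mod_G_zero, hR, mod_G_at_zero u R c hR _ (neg_ne_zero.mpr hp)]
  obtain ⟨a, ha | ha⟩ := Int.eq_nat_or_neg p
  · obtain ⟨b, hb | hb⟩ := Int.eq_nat_or_neg q
    · subst ha hb
      rw [mod_G_pos u R c _ b (by omega), mod_E u R c hR hRU hc b (by omega) a (by omega),
        mod_G_neg u R c _ a (by omega)]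
    · subst ha hb
      rw [mod_G_neg u R c _ b (by omega), mod_E' u R c hR hRU hc b (by omega) a (by omega),
        mod_G_neg u R c _ a (by omega), neg_neg]
  · obtain ⟨b, hb | hb⟩ := Int.eq_nat_or_neg q
    · subst ha hb
      rw [mod_G_pos u R c _ b (by omega), mod_E' u R c hR hRU hc b (by omega) a (by omega),
        neg_neg, mod_G_pos u R c _ a (by omega)]
    · subst ha hb
      rw [mod_G_neg u R c _ b (by omega), neg_neg, mod_E u R c hR hRU hc b (by omega) a (by omega),
        mod_G_pos u R c _ a (by omega)]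

end

theorem mod_slope_coprime (l : MW) : IsCoprime (MW.slope l).1 (MW.slope l).2 := by
  induction l with
  | nil => exact isCoprime_zero_left.mpr isUnit_one
  | cons a l ih =>
    rcases a with _ | b
    · show IsCoprime (MW.slope l).2 (-(MW.slope l).1)
      exact ih.symm.neg_right
    · cases b
      · show IsCoprime ((MW.slope l).1 - (MW.slope l).2) (MW.slope l).2
        have h := IsCoprime.add_mul_left_left ih (-1)
        rwa [mul_neg_one, ← sub_eq_add_neg] at h
      · show IsCoprime ((MW.slope l).1 + (MW.slope l).2) (MW.slope l).2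
        have h := IsCoprime.add_mul_left_left ih 1
        rwa [mul_one] at h

theorem mod_act {X : Type} (c : X) (u : Equiv.Perm X) (R : X → X) (hR : ∀ x, R (R x) = x)
    (hRU : ∀ x, R (u (R x)) = u⁻¹ (R (u⁻¹ x))) (hc : u (R c) = R c) (l : MW) :
    MW.act u (u⁻¹ : Equiv.Perm X) R c l = mod_G u R c (MW.slope l).1 (MW.slope l).2 := by
  induction l with
  | nil =>
    show c = mod_G u R c 0 1
    rw [mod_G_at_zero u R c hR 1 one_ne_zero]
  | cons a l ih =>
    rcases a with _ | b
    · show R (MW.act u (u⁻¹ : Equiv.Perm X) R c l) = mod_G u R c (MW.slope l).2 (-(MW.slope l).1)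
      rw [ih, mod_G_R u R c hR hRU hc]
      by_contra hcon
      push Not at hcon
      have h := mod_slope_coprime l
      rw [hcon.1, hcon.2] at h
      exact not_isCoprime_zero_zero h
    · cases b
      · show (u⁻¹ : Equiv.Perm X) (MW.act u (u⁻¹ : Equiv.Perm X) R c l) =
          mod_G u R c ((MW.slope l).1 - (MW.slope l).2) (MW.slope l).2
        rw [ih, mod_G_sub u R c hc]
      · show u (MW.act u (u⁻¹ : Equiv.Perm X) R c l) =
          mod_G u R c ((MW.slope l).1 + (MW.slope l).2) (MW.slope l).2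
        rw [ih, mod_G_add u R c hc]

theorem mod_proj (p q p' q' : ℤ) (h : IsCoprime p q) (h' : IsCoprime p' q')
    (he : p * q' = q * p') : (p' = p ∧ q' = q) ∨ (p' = -p ∧ q' = -q) := by
  have h1 : q ∣ q' := by
    apply h.symm.dvd_of_dvd_mul_left
    rw [he]
    exact dvd_mul_right _ _
  have h2 : q' ∣ q := by
    apply h'.symm.dvd_of_dvd_mul_right
    rw [← he]
    exact dvd_mul_left _ _
  have h3 : p ∣ p' := by
    apply h.dvd_of_dvd_mul_left
    rw [← he]
    exact dvd_mul_right _ _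
  have h4 : p' ∣ p := by
    apply h'.dvd_of_dvd_mul_right
    rw [he]
    exact dvd_mul_left _ _
  rcases Int.natAbs_eq_natAbs_iff.mp (Int.natAbs_eq_of_dvd_dvd h2 h1) with h5 | h5
  · rcases Int.natAbs_eq_natAbs_iff.mp (Int.natAbs_eq_of_dvd_dvd h4 h3) with h6 | h6
    · exact Or.inl ⟨h6, h5⟩
    · subst h5 h6
      rcases eq_or_ne q' 0 with h7 | h7
      · right
        exact ⟨rfl, by rw [h7, neg_zero]⟩
      · rcases eq_or_ne p 0 with h8 | h8
        · left
          exact ⟨by rw [h8, neg_zero], rfl⟩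
        · exfalso
          have h9 : 2 * (p * q') = 0 := by linarith
          simp [h7, h8] at h9
  · rcases Int.natAbs_eq_natAbs_iff.mp (Int.natAbs_eq_of_dvd_dvd h4 h3) with h6 | h6
    · subst h5 h6
      rcases eq_or_ne q 0 with h7 | h7
      · left
        exact ⟨rfl, by rw [h7, neg_zero]⟩
      · rcases eq_or_ne p' 0 with h8 | h8
        · right
          exact ⟨by rw [h8, neg_zero], rfl⟩
        · exfalso
          have h9 : 2 * (p' * q) = 0 := by linarith
          simp [h7, h8] at h9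
    · exact Or.inr ⟨h6, h5⟩

theorem thm_Mod : St_Mod := by
  intro X c U U' R hUU' hU'U hR hRU hc l l' hl
  let u : Equiv.Perm X := ⟨U, U', hU'U, hUU'⟩
  have h1 := mod_act c u R hR hRU hc l
  have h2 := mod_act c u R hR hRU hc l'
  have h3 : MW.act U U' R c l = mod_G u R c (MW.slope l).1 (MW.slope l).2 := h1
  have h4 : MW.act U U' R c l' = mod_G u R c (MW.slope l').1 (MW.slope l').2 := h2
  rw [h3, h4]
  rcases mod_proj _ _ _ _ (mod_slope_coprime l) (mod_slope_coprime l') hl with ⟨h5, h6⟩ | ⟨h5, h6⟩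
  · rw [h5, h6]
  · rw [h5, h6, mod_G_symm]

end Pool.Agent.ARB
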