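import Pool.Agent.ARB.V.St
import Pool.Agent.ARB.Basic
import Mathlib.Tactic

/-!
# Arborescent knots: rational tangles commute with crossings (RI)
-/

set_option autoImplicit false

namespace Pool.Agent.ARB

private theorem ri_swap (p q : Bool) : Iso 2 [pX 0 p, pX 0 q] [pX 0 q, pX 0 p] := by
  by_cases h : q = p
  · subst h
    exact Iso.refl _ _
  · have h1 : q = !p := by
      cases p <;> cases q <;> simp_all
    subst h1
    exact (Iso.r2 p (by omega)).trans (Iso.r2' p (by omega)).symm

theorem thm_RI (hF : St_F) (hFL : St_FL) (hR : St_RR) : St_RI := by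
  intro R hRat
  induction hRat with
  | zero => exact ⟨fun p => Iso.refl _ _, hFL.2.1⟩
  | add T p' hT ih =>
    obtain ⟨ih1, ih2⟩ := ih
    have hok := okA T
    refine ⟨fun p => ?_, ?_⟩
    · show Iso 2 (pX 0 p :: (T.word ++ [pX 0 p'])) ((T.word ++ [pX 0 p']) ++ [pX 0 p])
      have h1 : Iso 2 ((pX 0 p :: T.word) ++ [pX 0 p']) ((T.word ++ [pX 0 p]) ++ [pX 0 p']) :=
        (ih1 p).right _
      have h2 : Iso 2 (T.word ++ [pX 0 p, pX 0 p']) (T.word ++ [pX 0 p', pX 0 p]) :=
        Iso.left hok (ri_swap p p')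
      rw [List.append_assoc, List.cons_append] at h1
      rw [List.append_assoc]
      exact h1.trans h2
    · show Iso 2 (rotW (rotW (T.word ++ [pX 0 p']))) (T.word ++ [pX 0 p'])
      refine (hFL.1 T.word p' hok).trans ?_
      have h1 : Iso 2 ([pX 0 p'] ++ rotW (rotW T.word)) ([pX 0 p'] ++ T.word) :=
        Iso.left (k := 2) ⟨Nat.le_refl 2, rfl⟩ ih2
      exact h1.trans (ih1 p')
  | rot T hT ih =>
    obtain ⟨ih1, ih2⟩ := ih
    have hok := okA T
    refine ⟨fun p => ?_, ?_⟩
    · show Iso 2 (pX 0 p :: rotW T.word) (rotW T.word ++ [pX 0 p])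
      refine (hF T.word p hok).trans ?_
      refine Iso.right ?_ [pX 0 p]
      have h1 : Iso 2 ((pX 0 p :: T.word) ++ [pX 0 (!p)])
          ((T.word ++ [pX 0 p]) ++ [pX 0 (!p)]) := (ih1 p).right _
      have h2 : Iso 2 (T.word ++ [pX 0 p, pX 0 (!p)]) (T.word ++ []) :=
        Iso.left hok (Iso.r2 p (by omega))
      rw [List.append_assoc, List.cons_append] at h1
      rw [List.append_nil] at h2
      have h3 : Iso 2 (pX 0 p :: (T.word ++ [pX 0 (!p)])) T.word := h1.trans h2
      exact (congR' _ _ h3).trans ((congR' _ _ ih2.symm).trans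
        (hR (rotW T.word) (ok_rotW hok)).1)
    · exact congR _ _ ih2

end Pool.Agent.ARB
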