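import Pool.Agent.ARB.V.St
import Pool.Agent.ARB.Basic
import Mathlib.Tactic

/-!
# Module T3a: the slopes of rational tangles
-/

set_option autoImplicit false

namespace Pool.Agent.ARB

private theorem t3a_coprime (R : Arb) (h : Rat R) : IsCoprime R.pq.1 R.pq.2 := by
  induction h with
  | zero =>
    show IsCoprime (0 : ℤ) 1
    exact isCoprime_one_right
  | add T p _ ih =>
    show IsCoprime (T.pq.1 * 1 + T.pq.2 * (if p then 1 else -1)) (T.pq.2 * 1)
    rw [mul_one, mul_one]
    exact (IsCoprime.add_mul_left_left ih _)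
  | rot T _ ih =>
    show IsCoprime T.pq.2 (-T.pq.1)
    exact ih.symm.neg_right

/-- adding `n` crossings -/
private theorem t3a_add (R : Arb) (h : Rat R) (n : ℤ) :
    ∃ R' : Arb, Rat R' ∧ R'.pq = (R.pq.1 + n * R.pq.2, R.pq.2) := by
  induction n using Int.induction_on with
  | zero => exact ⟨R, h, by simp⟩
  | succ n ih =>
    obtain ⟨T, hT, hp⟩ := ih
    refine ⟨.sum T (.cross true), Rat.add T true hT, ?_⟩
    show (T.pq.1 * 1 + T.pq.2 * 1, T.pq.2 * 1) = _
    rw [hp]
    ext
    · show (R.pq.1 + (n : ℤ) * R.pq.2) * 1 + R.pq.2 * 1 = R.pq.1 + ((n : ℤ) + 1) * R.pq.2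
      ring
    · show R.pq.2 * 1 = R.pq.2
      ring
  | pred n ih =>
    obtain ⟨T, hT, hp⟩ := ih
    refine ⟨.sum T (.cross false), Rat.add T false hT, ?_⟩
    show (T.pq.1 * 1 + T.pq.2 * (-1), T.pq.2 * 1) = _
    rw [hp]
    ext
    · show (R.pq.1 + (-(n : ℤ)) * R.pq.2) * 1 + R.pq.2 * (-1) =
        R.pq.1 + (-(n : ℤ) - 1) * R.pq.2
      ring
    · show R.pq.2 * 1 = R.pq.2
      ring

private theorem t3a_exists (k : ℕ) : ∀ p q : ℤ, q.natAbs = k → IsCoprime p q →
    ∃ R : Arb, Rat R ∧ (R.pq = (p, q) ∨ R.pq = (-p, -q)) := by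
  induction k using Nat.strong_induction_on with
  | _ k ih =>
    intro p q hk hc
    by_cases hq : q = 0
    · subst hq
      have hu : IsUnit p := isCoprime_zero_right.1 hc
      refine ⟨.rot .zero, Rat.rot _ Rat.zero, ?_⟩
      have hpq : (Arb.rot .zero).pq = (1, 0) := rfl
      rw [hpq]
      rcases Int.isUnit_iff.1 hu with h | h
      · left
        rw [h]
      · right
        rw [h]
        rfl
    · have hlt : (p % q).natAbs < k := by
        rw [← hk]
        have h1 := Int.emod_nonneg p hq
        have h2 := Int.emod_lt_abs p hq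
        rw [Int.abs_eq_natAbs] at h2
        omega
      have hdiv : p = p % q + (p / q) * q := by
        have := Int.emod_add_mul_ediv p q
        rw [mul_comm (p / q) q]
        exact this.symm
      have hc1 : IsCoprime (p % q) q := by
        rw [hdiv] at hc
        have h3 := IsCoprime.add_mul_right_left hc (-(p / q))
        have h4 : p % q + p / q * q + -(p / q) * q = p % q := by ring
        rwa [h4] at h3
      obtain ⟨T, hT, hTp⟩ := ih _ hlt (-q) (p % q) rfl hc1.symm.neg_left
      obtain ⟨R, hR, hRp⟩ := t3a_add (.rot T) (Rat.rot T hT) (p / q)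
      refine ⟨R, hR, ?_⟩
      have hr : (Arb.rot T).pq = (T.pq.2, -T.pq.1) := rfl
      rw [hRp, hr]
      rcases hTp with h | h
      · left
        rw [h]
        ext
        · show p % q + p / q * (- -q) = p
          rw [neg_neg]
          exact hdiv.symm
        · show - -q = q
          exact neg_neg q
      · right
        rw [h]
        ext
        · show -(p % q) + p / q * (-(- -q)) = -p
          rw [neg_neg]
          linarith [hdiv]
        · show -(- -q) = -q
          rw [neg_neg]

theorem thm_T3a : St_T3a :=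
  ⟨t3a_coprime, fun p q h => t3a_exists q.natAbs p q rfl h⟩

end Pool.Agent.ARB
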