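import Pool.Agent.ARB.V.St
import Pool.Agent.ARB.Basic
import Mathlib.Tactic

/-!
# Module T3b: sums of a rational and an integral tangle
-/

set_option autoImplicit false

namespace Pool.Agent.ARB

private theorem t3b_int (hRI : St_RI) (R : Arb) (h : Rat R) (n : ℤ) :
    ∃ J C : Arb, Rat J ∧ Rat C ∧ J.pq = (n, 1) ∧ C.pq = (R.pq.1 + n * R.pq.2, R.pq.2) ∧
      Iso 2 (R.word ++ J.word) C.word ∧ Iso 2 (J.word ++ R.word) (R.word ++ J.word) := by
  have step : ∀ (p : Bool) (m m' : ℤ), m' = m + (if p then 1 else -1) →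
      (∃ J C : Arb, Rat J ∧ Rat C ∧ J.pq = (m, 1) ∧ C.pq = (R.pq.1 + m * R.pq.2, R.pq.2) ∧
        Iso 2 (R.word ++ J.word) C.word ∧ Iso 2 (J.word ++ R.word) (R.word ++ J.word)) →
      ∃ J C : Arb, Rat J ∧ Rat C ∧ J.pq = (m', 1) ∧ C.pq = (R.pq.1 + m' * R.pq.2, R.pq.2) ∧
        Iso 2 (R.word ++ J.word) C.word ∧ Iso 2 (J.word ++ R.word) (R.word ++ J.word) := by
    rintro p m m' rfl ⟨J, C, hJ, hC, hJp, hCp, h1, h2⟩
    refine ⟨.sum J (.cross p), .sum C (.cross p), Rat.add J p hJ, Rat.add C p hC, ?_, ?_, ?_, ?_⟩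
    · show (J.pq.1 * 1 + J.pq.2 * (if p then 1 else -1), J.pq.2 * 1) = _
      rw [hJp]
      ext
      · show m * 1 + 1 * (if p then 1 else -1) = m + (if p then 1 else -1)
        ring
      · show (1 : ℤ) * 1 = 1
        ring
    · show (C.pq.1 * 1 + C.pq.2 * (if p then 1 else -1), C.pq.2 * 1) = _
      rw [hCp]
      ext
      · show (R.pq.1 + m * R.pq.2) * 1 + R.pq.2 * (if p then 1 else -1) =
          R.pq.1 + (m + (if p then 1 else -1)) * R.pq.2
        ring
      · show R.pq.2 * 1 = R.pq.2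
        ring
    · show Iso 2 (R.word ++ (J.word ++ [pX 0 p])) (C.word ++ [pX 0 p])
      rw [← List.append_assoc]
      exact h1.right _
    · show Iso 2 ((J.word ++ [pX 0 p]) ++ R.word) (R.word ++ (J.word ++ [pX 0 p]))
      rw [← List.append_assoc, List.append_assoc J.word]
      have h3 : Iso 2 (J.word ++ ([pX 0 p] ++ R.word)) (J.word ++ (R.word ++ [pX 0 p])) :=
        Iso.left (okA J) ((hRI R h).1 p)
      rw [← List.append_assoc J.word R.word] at h3
      exact h3.trans (h2.right _)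
  induction n using Int.induction_on with
  | zero =>
    refine ⟨.zero, R, Rat.zero, h, rfl, by simp, ?_, ?_⟩
    · show Iso 2 (R.word ++ []) R.word
      rw [List.append_nil]
      exact Iso.refl _ _
    · show Iso 2 ([] ++ R.word) (R.word ++ [])
      rw [List.append_nil]
      exact Iso.refl _ _
  | succ n ih => exact step true (n : ℤ) _ (by simp) ih
  | pred n ih => exact step false (-(n : ℤ)) _ (by simp; ring) ih

theorem thm_T3b (hRI : St_RI) (h3 : St_T3) : St_T3b := by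
  intro R I hR hI hI2
  have h2 : I.pq.2 = 1 ∨ I.pq.2 = -1 := by omega
  obtain ⟨J, C, hJ, hC, hJp, hCp, h4, h5⟩ := t3b_int hRI R hR (I.pq.1 * I.pq.2)
  have hIJ : Iso 2 I.word J.word := by
    refine h3 I J hI hJ ?_
    rw [hJp]
    show I.pq.1 * 1 = I.pq.2 * (I.pq.1 * I.pq.2)
    rcases h2 with h | h <;> rw [h] <;> ring
  refine ⟨C, hC, ?_, ?_, ?_⟩
  · show Iso 2 (R.word ++ I.word) C.word
    exact (Iso.left (okA R) hIJ).trans h4
  · show Iso 2 (I.word ++ R.word) C.word
    exact ((hIJ.right _).trans h5).trans h4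
  · have hs : (Arb.sum R I).pq = (R.pq.1 * I.pq.2 + R.pq.2 * I.pq.1, R.pq.2 * I.pq.2) := rfl
    rw [hCp, hs]
    rcases h2 with h | h
    · left
      rw [h]
      ext
      · show R.pq.1 + I.pq.1 * 1 * R.pq.2 = R.pq.1 * 1 + R.pq.2 * I.pq.1
        ring
      · show R.pq.2 = R.pq.2 * 1
        ring
    · right
      rw [h]
      ext
      · show R.pq.1 + I.pq.1 * (-1) * R.pq.2 = -(R.pq.1 * (-1) + R.pq.2 * I.pq.1)
        ring
      · show R.pq.2 = -(R.pq.2 * (-1))
        ring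

end Pool.Agent.ARB
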