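import Pool.Agent.ARB.V.St
import Pool.Agent.ARB.Basic
import Mathlib.Tactic

/-!
# Arborescent knots: connected sum with an unknot
-/

set_option autoImplicit false

namespace Pool.Agent.ARB

private theorem t5_x1 (hC : St_Comm) {C : Word} (h : Ok C 2 2) :
    Iso 2 ((pU 1 :: (C ++ [pN 0])) ++ [pN 0]) (C ++ [pN 0]) := by
  have e0 : (pU 1 :: (C ++ [pN 0])) ++ [pN 0] = [pU 1] ++ (C ++ ([pN 0, pN 0] ++ [])) := by simp
  have h1 : Iso 4 (C ++ ([pN 0, pN 0] ++ [])) (C ++ ([pN 2, pN 0] ++ [])) :=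
    Iso.mid C [] (h.add 2) (Iso.swap .N .N 0 2 (by decide) (by decide))
  have h2 : Iso 4 (C ++ [pN 2]) ([pN 2] ++ C) :=
    hC C [pN 0] 2 2 2 0 h ⟨by decide, rfl⟩
  have h3 : Iso 4 ((C ++ [pN 2]) ++ [pN 0]) (([pN 2] ++ C) ++ [pN 0]) := h2.right _
  have e1 : C ++ ([pN 2, pN 0] ++ []) = (C ++ [pN 2]) ++ [pN 0] := by simp
  have h4 : Iso 4 (C ++ ([pN 0, pN 0] ++ [])) (([pN 2] ++ C) ++ [pN 0]) := by
    rw [e1] at h1
    exact h1.trans h3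
  have h5 : Iso 2 ([pU 1] ++ (C ++ ([pN 0, pN 0] ++ []))) ([pU 1] ++ (([pN 2] ++ C) ++ [pN 0])) :=
    Iso.left (k := 4) ⟨by decide, rfl⟩ h4
  have h6 : Iso 2 ([pU 1, pN 2] ++ (C ++ [pN 0])) ([] ++ (C ++ [pN 0])) :=
    (Iso.zig (by decide)).right _
  have e2 : [pU 1] ++ (([pN 2] ++ C) ++ [pN 0]) = [pU 1, pN 2] ++ (C ++ [pN 0]) := by simp
  rw [e0]
  rw [e2] at h5
  exact h5.trans h6

private theorem t5_x2 (hC : St_Comm) {C : Word} (h : Ok C 2 2) (v : Word) :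
    Iso 0 ([pU 0] ++ (sh 1 (pU 1 :: (sh 1 C ++ [pN 0])) ++ v)) ((pU 0 :: C) ++ v) := by
  have e0 : [pU 0] ++ (sh 1 (pU 1 :: (sh 1 C ++ [pN 0])) ++ v) =
      ([pU 0] ++ sh 2 (pU 0 :: C)) ++ ([pN 1] ++ v) := by
    simp [sh_cons, sh_append, sh_sh, sh_nil]
  have h1 : Iso 0 ([pU 0] ++ sh 2 (pU 0 :: C)) (sh 0 (pU 0 :: C) ++ [pU 0]) :=
    hC [pU 0] (pU 0 :: C) 0 2 0 2 ⟨by decide, rfl⟩ ⟨by decide, h⟩
  rw [sh_zero] at h1
  have h2 := h1.right ([pN 1] ++ v)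
  have e1 : ((pU 0 :: C) ++ [pU 0]) ++ ([pN 1] ++ v) = (pU 0 :: C) ++ ([pU 0, pN 1] ++ v) := by
    simp
  have h3 : Iso 0 ((pU 0 :: C) ++ ([pU 0, pN 1] ++ v)) ((pU 0 :: C) ++ ([] ++ v)) :=
    Iso.mid (k := 2) (pU 0 :: C) v ⟨by decide, h⟩ (Iso.zig (by decide))
  rw [e0]
  rw [e1] at h2
  exact h2.trans h3

theorem thm_T5s (hC : St_Comm) (hO : St_BO) (hR : St_BR) : St_T5s := by
  intro B C hB hCC hBO
  have hrdy := hR (DW B) hBO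
  constructor
  · have hX : Ok (pU 1 :: (C ++ [pN 0])) 1 1 :=
      ⟨by decide, (hCC.add 1).append ⟨by decide, rfl⟩⟩
    have h1 := hrdy (pU 1 :: (C ++ [pN 0])) (pU 0 :: B) [pN 0] 2 0 hX rfl ⟨by decide, hB⟩
      (by decide)
    rw [sh_zero] at h1
    have h2 : Iso 0 ((pU 0 :: B) ++ ((pU 1 :: (C ++ [pN 0])) ++ [pN 0]))
        ((pU 0 :: B) ++ (C ++ [pN 0])) := Iso.left (k := 2) ⟨by decide, hB⟩ (t5_x1 hC hCC)
    have h3 : Iso 0 ([pU 0] ++ ((pU 1 :: (C ++ [pN 0])) ++ [pN 0])) ([pU 0] ++ (C ++ [pN 0])) :=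
      Iso.left (k := 2) ⟨by decide, rfl⟩ (t5_x1 hC hCC)
    have e1 : DW (B ++ C) = (pU 0 :: B) ++ (C ++ [pN 0]) := by simp [DW]
    rw [e1]
    exact h2.symm.trans (h1.trans h3)
  · have hX : Ok (pU 1 :: (sh 1 C ++ [pN 0])) 1 1 :=
      ⟨by decide, (hCC.sh 1).append ⟨by decide, rfl⟩⟩
    have h1 := hrdy (pU 1 :: (sh 1 C ++ [pN 0])) [pU 0] (B ++ [pN 0]) 2 1 hX rfl
      ⟨by decide, rfl⟩ (by decide)
    have h2 := t5_x2 hC hCC (B ++ [pN 0])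
    have h3 := (hO (pU 1 :: (sh 1 C ++ [pN 0])) hX).1
    have h4 := t5_x2 hC hCC [pN 0]
    have e1 : DW (C ++ B) = (pU 0 :: C) ++ (B ++ [pN 0]) := by simp [DW]
    rw [e1]
    exact h2.symm.trans (h1.trans (h3.symm.trans h4))

theorem thm_T5 (hC : St_Comm) (hO : St_BO) (hR : St_BR) : St_T5 := by
  intro A B hA hB hA1 hB1
  exact (thm_T5s hC hO hR A B hA hB hA1).1.trans hB1

end Pool.Agent.ARB
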