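import Pool.Agent.ARB.V.St
import Pool.Agent.ARB.Basic
import Mathlib.Tactic

/-!
# Arborescent knots: the class of a rational tangle depends only on the slope
-/

set_option autoImplicit false

namespace Pool.Agent.ARB

/-- rational tangles up to isotopy -/
private def t3Setoid : Setoid {R : Arb // Rat R} where
  r R R' := Iso 2 R.1.word R'.1.word
  iseqv := ⟨fun R => Iso.refl 2 R.1.word, fun h => h.symm, fun h h' => h.trans h'⟩

private abbrev T3Q : Type := Quotient t3Setoid

private def t3c : T3Q := Quotient.mk t3Setoid ⟨.zero, .zero⟩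

private def t3U (p : Bool) : T3Q → T3Q :=
  Quotient.map' (s₁ := t3Setoid) (s₂ := t3Setoid) (fun R => ⟨.sum R.1 (.cross p), .add R.1 p R.2⟩)
    fun _ _ h => Iso.right h [pX 0 p]

private def t3R : T3Q → T3Q :=
  Quotient.map' (s₁ := t3Setoid) (s₂ := t3Setoid) (fun R => ⟨.rot R.1, .rot R.1 R.2⟩)
    fun _ _ h => congR _ _ h

private theorem t3_mk {R R' : {R : Arb // Rat R}} (h : Iso 2 R.1.word R'.1.word) :
    Quotient.mk t3Setoid R = Quotient.mk t3Setoid R' := Quotient.sound h

private theorem t3_inv (p : Bool) (x : T3Q) : t3U p (t3U (!p) x) = x := by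
  induction x using Quotient.inductionOn with
  | h R =>
    apply t3_mk
    show Iso 2 ((R.1.word ++ [pX 0 (!p)]) ++ [pX 0 p]) R.1.word
    have h1 : Iso 2 (R.1.word ++ [pX 0 (!p), pX 0 p]) (R.1.word ++ []) :=
      Iso.left (okA R.1) (Iso.r2' (n := 2) (i := 0) p (Nat.le_refl 2))
    rw [List.append_nil] at h1
    rw [List.append_assoc]
    exact h1

private theorem t3_word : ∀ R : Arb, (hR : Rat R) → ∃ l : MW, MW.slope l = R.pq ∧
    MW.act (t3U true) (t3U false) t3R t3c l = Quotient.mk t3Setoid ⟨R, hR⟩ := by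
  intro R hR
  induction hR with
  | zero => exact ⟨[], rfl, rfl⟩
  | add T p hT ih =>
    obtain ⟨l, h1, h2⟩ := ih
    refine ⟨some p :: l, ?_, ?_⟩
    · cases p
      · show ((MW.slope l).1 - (MW.slope l).2, (MW.slope l).2) =
          (T.pq.1 * 1 + T.pq.2 * -1, T.pq.2 * 1)
        rw [h1]
        ext <;> simp
        ring
      · show ((MW.slope l).1 + (MW.slope l).2, (MW.slope l).2) =
          (T.pq.1 * 1 + T.pq.2 * 1, T.pq.2 * 1)
        rw [h1]
        ext <;> simp
    · cases p
      · show t3U false (MW.act (t3U true) (t3U false) t3R t3c l) = _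
        rw [h2]
        rfl
      · show t3U true (MW.act (t3U true) (t3U false) t3R t3c l) = _
        rw [h2]
        rfl
  | rot T hT ih =>
    obtain ⟨l, h1, h2⟩ := ih
    refine ⟨none :: l, ?_, ?_⟩
    · show ((MW.slope l).2, -(MW.slope l).1) = (T.pq.2, -T.pq.1)
      rw [h1]
    · show t3R (MW.act (t3U true) (t3U false) t3R t3c l) = _
      rw [h2]
      rfl

theorem thm_T3 (hRI : St_RI) (hJ : St_J) (hFL : St_FL) (hM : St_Mod) : St_T3 := by
  intro R R' hR hR' h
  obtain ⟨l, h1, h2⟩ := t3_word R hR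
  obtain ⟨l', h1', h2'⟩ := t3_word R' hR'
  have h3 := hM T3Q t3c (t3U true) (t3U false) t3R (t3_inv true) (t3_inv false) ?_ ?_ ?_ l l'
    (by rw [h1, h1']; exact h)
  · rw [h2, h2'] at h3
    exact Quotient.exact h3
  · intro x
    induction x using Quotient.inductionOn with
    | h S => exact t3_mk (hRI S.1 S.2).2
  · intro x
    induction x using Quotient.inductionOn with
    | h S =>
      apply t3_mk
      show Iso 2 (rotW (rotW S.1.word ++ [pX 0 true])) (rotW (S.1.word ++ [pX 0 false]) ++ [pX 0 false])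
      have a1 : Iso 2 (rotW (rotW S.1.word ++ [pX 0 true]))
          ([pX 0 false] ++ rotW (pX 0 false :: S.1.word)) := hJ S.1.word true (okA S.1)
      have a2 : Iso 2 (rotW (pX 0 false :: S.1.word)) (rotW (S.1.word ++ [pX 0 false])) :=
        congR _ _ ((hRI S.1 S.2).1 false)
      have a3 : Iso 2 ([pX 0 false] ++ rotW (pX 0 false :: S.1.word))
          ([pX 0 false] ++ rotW (S.1.word ++ [pX 0 false])) :=
        Iso.left (k := 2) ⟨Nat.le_refl 2, rfl⟩ a2
      have a4 := (hRI (.rot (.sum S.1 (.cross false))) (.rot _ (.add _ false S.2))).1 false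
      exact (a1.trans a3).trans a4
  · exact t3_mk (hFL.2.2 true)

end Pool.Agent.ARB
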