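import Pool.Agent.ARB.V.St
import Pool.Agent.ARB.Basic
import Mathlib.Tactic

/-!
# Rational tangles of determinant one
-/

set_option autoImplicit false

namespace Pool.Agent.ARB

/-- the integral tangles -/
private def tfour (p : Bool) : ℕ → Arb
  | 0 => .zero
  | n + 1 => .sum (tfour p n) (.cross p)

private theorem tfour_rat (p : Bool) (n : ℕ) : Rat (tfour p n) := by
  induction n with
  | zero => exact Rat.zero
  | succ n ih => exact Rat.add _ p ih

private theorem tfour_pq (p : Bool) (n : ℕ) :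
    (tfour p n).pq = ((if p then (n : ℤ) else -(n : ℤ)), 1) := by
  induction n with
  | zero => cases p <;> rfl
  | succ n ih =>
    show ((tfour p n).pq.1 * (Arb.cross p).pq.2 + (tfour p n).pq.2 * (Arb.cross p).pq.1,
      (tfour p n).pq.2 * (Arb.cross p).pq.2) = _
    rw [ih]
    cases p
    · simp [Arb.pq]
      ring
    · simp [Arb.pq]

private theorem tfour_DW (p : Bool) (n : ℕ) : Iso 0 (DW (tfour p n).word) O1 := by
  induction n with
  | zero => exact Iso.refl _ _
  | succ n ih =>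
    refine Iso.trans ?_ ih
    have h : Iso 2 [pX 0 p, pN 0] [pN 0] := Iso.r1N p (by decide)
    have hu : Ok (pU 0 :: (tfour p n).word) 0 2 := ⟨by decide, okA _⟩
    have h1 := Iso.left hu h
    have e : pU 0 :: (tfour p n).word ++ [pX 0 p, pN 0] = DW (tfour p (n + 1)).word := by
      simp [DW, tfour, Arb.word]
    rw [e] at h1
    exact h1

theorem thm_T4 (h2 : St_T2) (h7 : St_T7) (h3 : St_T3) : St_T4 := by
  intro R hR h1
  obtain ⟨p, hp⟩ : ∃ p : Bool, R.pq.1 * -((if p then ((R.pq.2.natAbs : ℕ) : ℤ)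
      else -((R.pq.2.natAbs : ℕ) : ℤ))) = R.pq.2 * 1 := by
    have h4 : R.pq.1 = 1 ∨ R.pq.1 = -1 := by omega
    by_cases h5 : 0 ≤ R.pq.2 * R.pq.1
    · refine ⟨false, ?_⟩
      rcases h4 with h4 | h4 <;> rw [h4] at h5 ⊢ <;>
        simp only [Bool.false_eq_true, if_false] <;> omega
    · refine ⟨true, ?_⟩
      rcases h4 with h4 | h4 <;> rw [h4] at h5 ⊢ <;> simp only [if_true] <;> omega
  have hA := tfour_rat p R.pq.2.natAbs
  have h4 : Iso 2 R.word (Arb.rot (tfour p R.pq.2.natAbs)).word := by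
    refine h3 R _ hR (Rat.rot _ hA) ?_
    show R.pq.1 * -(tfour p R.pq.2.natAbs).pq.1 = R.pq.2 * (tfour p R.pq.2.natAbs).pq.2
    rw [tfour_pq]
    exact hp
  have h5 : Iso 0 (NW R.word) (NW (rotW (tfour p R.pq.2.natAbs).word ++ [])) := by
    rw [List.append_nil]
    exact congN _ _ h4
  exact h5.trans ((h2 _ [] (okA _) rfl).trans ((h7 _ (okA _)).trans (tfour_DW _ _)))

end Pool.Agent.ARB
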